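import Pool.Agent.V8H8.AB.RatNear

/-!
# Isosceles triples over the Gaussian integers and the classical abc conjecture

The abc conjecture over `ℤ[i]` for the coprime triples `a + b = c` with `|a| = |c|` is equivalent to the
classical abc conjecture over `ℤ`, and it is enough to have it for the thin ones: `|b| ≤ δ |a|` and
`N ∣ b`.
-/

set_option autoImplicit false

namespace Pool.Agent.Results.MP_dc323a_nt.IsoscelesTriples

/-- coprime triples `a + b = c` with `a b c ≠ 0` -/
structure Triple (a b c : GaussianInt) : Prop where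
  sum : a + b = c
  ne : a * b * c ≠ 0
  cop : IsCoprime a b

/-- `S` contains exactly one Gaussian prime from each associate class of Gaussian primes
dividing `x` -/
def IsPrimeSystem (S : Finset GaussianInt) (x : GaussianInt) : Prop :=
  (∀ Q ∈ S, Prime Q ∧ Q ∣ x) ∧
  (∀ Q : GaussianInt, Prime Q → Q ∣ x → ∃ R ∈ S, Associated Q R) ∧
  (∀ Q ∈ S, ∀ R ∈ S, Associated Q R → Q = R)

/-- the largest absolute value of the members of a triple -/
noncomputable def height (a b c : GaussianInt) : ℝ :=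
  max ‖GaussianInt.toComplex a‖ (max ‖GaussianInt.toComplex b‖ ‖GaussianInt.toComplex c‖)

/-- the abc conjecture over `ℤ[i]` for the triples satisfying `P`: for every `ε > 0` there is `C > 0` with
`rad(abc) ≥ C max {|a|, |b|, |c|} ^ (1 - ε)` -/
def GaussianABC (P : GaussianInt → GaussianInt → GaussianInt → Prop) : Prop :=
  ∀ ε : ℝ, 0 < ε → ∃ C : ℝ, 0 < C ∧ ∀ a b c : GaussianInt, Triple a b c → P a b c →
    ∀ S : Finset GaussianInt, IsPrimeSystem S (a * b * c) →
      C * height a b c ^ (1 - ε) ≤ ∏ Q ∈ S, ‖GaussianInt.toComplex Q‖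

/-- the classical abc conjecture, for coprime rational integers `a + b = c` with `a b c ≠ 0` -/
def ClassicalABC : Prop :=
  ∀ ε : ℝ, 0 < ε → ∃ C : ℝ, 0 < C ∧ ∀ a b c : ℤ, a + b = c → a * b * c ≠ 0 → IsCoprime a b →
    C * max |(a : ℝ)| (max |(b : ℝ)| |(c : ℝ)|) ^ (1 - ε) ≤
      ∏ p ∈ (a * b * c).natAbs.primeFactors, (p : ℝ)

/-- `|a| = |c|` -/
def Isosceles (a _b c : GaussianInt) : Prop :=
  ‖GaussianInt.toComplex a‖ = ‖GaussianInt.toComplex c‖

/-- `|a| = |c|`, `|b| ≤ δ |a|` and `N ∣ b` -/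
def ThinIsosceles (N : GaussianInt) (δ : ℝ) (a b c : GaussianInt) : Prop :=
  ‖GaussianInt.toComplex a‖ = ‖GaussianInt.toComplex c‖ ∧
    ‖GaussianInt.toComplex b‖ ≤ δ * ‖GaussianInt.toComplex a‖ ∧ N ∣ b

open NumberField Pool.Agent.V8H8.AB
open Pool.Agent.TH402.AK (K4 emb emb_inj e Quadrant quadrant_uniq exists_quadrant quad_finite unit_cases)

lemma exists_system {n : GaussianInt} (hn : n ≠ 0) : ∃ S, IsPrimeSystem S n := by
  classical
  refine ⟨(quad_finite hn).toFinset, ?_, ?_, ?_⟩
  · intro Q hQ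
    rw [Set.Finite.mem_toFinset] at hQ
    exact ⟨hQ.1, hQ.2.1⟩
  · intro Q hQ hQn
    obtain ⟨w, hw, hQw⟩ := exists_quadrant hQ.ne_zero
    refine ⟨w, ?_, hQw⟩
    rw [Set.Finite.mem_toFinset]
    exact ⟨hQw.prime hQ, hQw.symm.dvd.trans hQn, hw⟩
  · intro Q hQ R hR h
    rw [Set.Finite.mem_toFinset] at hQ hR
    exact quadrant_uniq hQ.2.2 hR.2.2 h

lemma norm_pos' {z : GaussianInt} (hz : z ≠ 0) : 0 < ‖GaussianInt.toComplex z‖ := by
  rw [norm_pos_iff]
  intro h0
  exact hz (GaussianInt.toComplex_injective (h0.trans (map_zero _).symm))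

lemma norm_sq' (z : GaussianInt) : ‖GaussianInt.toComplex z‖ ^ 2 = (z.norm : ℝ) := by
  rw [← Complex.normSq_eq_norm_sq, ← GaussianInt.intCast_real_norm]

lemma Triple.a0 {a b c : GaussianInt} (h : Triple a b c) : a ≠ 0 := by
  rintro rfl
  exact h.ne (by ring)

lemma Triple.b0 {a b c : GaussianInt} (h : Triple a b c) : b ≠ 0 := by
  rintro rfl
  exact h.ne (by ring)

lemma Triple.c0 {a b c : GaussianInt} (h : Triple a b c) : c ≠ 0 := by
  rintro rfl
  exact h.ne (by ring)

lemma Triple.copac {a b c : GaussianInt} (h : Triple a b c) : IsCoprime a c := by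
  rw [← h.sum]
  exact h.cop.mul_add_left_right 1 |> fun h' => by simpa [add_comm] using h'

/-- the structure of the isosceles triples -/
lemma iso_struct {a b c : GaussianInt} (h : Triple a b c)
    (hac : ‖GaussianInt.toComplex a‖ = ‖GaussianInt.toComplex c‖) :
    ∃ L M k : ℤ, (k = 1 ∨ k = 2) ∧ L ^ 2 + M ^ 2 = k * a.norm ∧ IsCoprime L M ∧
      (L : GaussianInt) ∣ b ∧ L ≠ 0 := by
  have hcop := h.copac
  have hn : a.norm = c.norm := by
    have h1 : (a.norm : ℝ) = c.norm := by rw [← norm_sq', ← norm_sq', hac]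
    exact_mod_cast h1
  have h1 : a * star a = c * star c := by
    rw [← Zsqrtd.norm_eq_mul_conj, ← Zsqrtd.norm_eq_mul_conj, hn]
  have h2 : c ∣ star a := hcop.symm.dvd_of_dvd_mul_left ⟨star c, h1⟩
  obtain ⟨k, hk⟩ := h2
  have hk1 : k.norm = 1 := by
    have h3 := congrArg Zsqrtd.norm hk
    rw [Zsqrtd.norm_mul, Zsqrtd.norm_conj, hn] at h3
    have h4 : c.norm ≠ 0 := ne_of_gt (GaussianInt.norm_pos.2 h.c0)
    exact (mul_left_cancel₀ h4 (by rw [mul_one]; exact h3)).symm
  have hku : IsUnit k := (Zsqrtd.norm_eq_one_iff' (by norm_num) k).1 hk1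
  have hst : IsCoprime a (star a) := by
    rw [hk]
    exact (isCoprime_mul_unit_right_right hku _ _).2 hcop
  obtain ⟨x, y⟩ := a
  have hstar : star (⟨x, y⟩ : GaussianInt) = ⟨x, -y⟩ := rfl
  rw [hstar] at hk hst
  have hnorm : (⟨x, y⟩ : GaussianInt).norm = x ^ 2 + y ^ 2 := by
    rw [Zsqrtd.norm_def]
    ring
  -- `x`, `y` coprime
  have hxy : IsCoprime x y := by
    rw [Int.isCoprime_iff_gcd_eq_one]
    obtain ⟨x', hx'⟩ : (Int.gcd x y : ℤ) ∣ x := Int.gcd_dvd_left ..
    obtain ⟨y', hy'⟩ : (Int.gcd x y : ℤ) ∣ y := Int.gcd_dvd_right ..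
    obtain ⟨s, t, hst'⟩ := hst
    have e1 : (⟨x, y⟩ : GaussianInt) = (Int.gcd x y : ℤ) * ⟨x', y'⟩ := by
      ext <;> simp [← hx', ← hy']
    have e2 : (⟨x, -y⟩ : GaussianInt) = (Int.gcd x y : ℤ) * ⟨x', -y'⟩ := by
      ext <;> simp [← hx', ← hy']
    have h3 : IsUnit ((Int.gcd x y : ℤ) : GaussianInt) := by
      refine IsUnit.of_mul_eq_one (s * ⟨x', y'⟩ + t * ⟨x', -y'⟩) ?_
      rw [e1, e2] at hst'
      rw [← hst']
      ring
    have h4 := (Zsqrtd.norm_eq_one_iff' (by norm_num) _).2 h3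
    rw [Zsqrtd.norm_intCast] at h4
    have h5 : (Int.gcd x y : ℤ) * (Int.gcd x y : ℤ) = 1 * 1 := by rw [h4]; ring
    have h6 : Int.gcd x y * Int.gcd x y = 1 := by exact_mod_cast h5
    exact Nat.eq_one_of_mul_eq_one_left h6
  -- `x + y` odd
  have hodd : Odd (x + y) := by
    rw [← Int.not_even_iff_odd]
    rintro ⟨m, hm⟩
    obtain ⟨s, t, hst'⟩ := hst
    have e1 : (⟨x, y⟩ : GaussianInt) = ⟨1, 1⟩ * ⟨m, y - m⟩ := by
      ext
      · simp; linarith
      · simp
    have e2 : (⟨x, -y⟩ : GaussianInt) = ⟨1, 1⟩ * ⟨m - y, -m⟩ := by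
      ext
      · simp; linarith
      · simp; ring
    have h3 : IsUnit (⟨1, 1⟩ : GaussianInt) := by
      refine IsUnit.of_mul_eq_one (s * ⟨m, y - m⟩ + t * ⟨m - y, -m⟩) ?_
      rw [e1, e2] at hst'
      rw [← hst']
      ring
    have h4 := (Zsqrtd.norm_eq_one_iff' (by norm_num) _).2 h3
    rw [Zsqrtd.norm_def] at h4
    norm_num at h4
  have hcop2 : IsCoprime (x + y) (x - y) := by
    obtain ⟨u, v, huv⟩ := hxy
    obtain ⟨m, hm⟩ := hodd
    refine ⟨1 - m * (u + v), -m * (u - v), ?_⟩
    have : (1 - m * (u + v)) * (x + y) + -m * (u - v) * (x - y) =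
        (x + y) - m * (2 * (u * x + v * y)) := by ring
    rw [this, huv, hm]
    ring
  have hb : b = c - ⟨x, y⟩ := by
    rw [← h.sum]
    ring
  have hb0 := h.b0
  obtain ⟨p, q⟩ := c
  rcases unit_cases hku with hk' | hk' | hk' | hk'
  · rw [hk', mul_one, Zsqrtd.ext_iff] at hk
    simp only at hk
    obtain ⟨rfl, hk2⟩ := hk
    obtain rfl : q = -y := by omega
    refine ⟨y, x, 1, Or.inl rfl, by rw [hnorm]; ring, hxy.symm, ⟨⟨0, -2⟩, ?_⟩, ?_⟩
    · rw [hb]
      ext
      · simp
      · simp; ring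
    · rintro rfl
      apply hb0
      rw [hb]
      simp
  · rw [hk', Zsqrtd.ext_iff] at hk
    simp at hk
    obtain ⟨hk1', hk2⟩ := hk
    obtain rfl : p = -x := by omega
    obtain rfl : q = y := by omega
    refine ⟨x, q, 1, Or.inl rfl, by rw [hnorm]; ring, hxy, ⟨-2, ?_⟩, ?_⟩
    · rw [hb]
      ext
      · simp; ring
      · simp
    · rintro rfl
      apply hb0
      rw [hb]
      simp
  · rw [hk', Zsqrtd.ext_iff] at hk
    simp at hk
    obtain ⟨hk1', hk2⟩ := hk
    obtain rfl : p = -y := by omega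
    obtain rfl : q = -x := by omega
    refine ⟨x + y, x - y, 2, Or.inr rfl, by rw [hnorm]; ring, hcop2, ⟨⟨-1, -1⟩, ?_⟩, ?_⟩
    · rw [hb]
      ext
      · simp; ring
      · simp; ring
    · intro h0
      apply hb0
      rw [hb]
      ext
      · simp; omega
      · simp; omega
  · rw [hk', Zsqrtd.ext_iff] at hk
    simp at hk
    obtain ⟨hk1', hk2⟩ := hk
    obtain rfl : q = x := by omega
    obtain rfl : p = y := by omega
    refine ⟨q - p, q + p, 2, Or.inr rfl, by rw [hnorm]; ring, hcop2.symm, ⟨⟨-1, 1⟩, ?_⟩, ?_⟩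
    · rw [hb]
      ext
      · simp
      · simp
    · intro h0
      apply hb0
      rw [hb]
      ext
      · simp; omega
      · simp; omega

lemma height_le {a b c : GaussianInt} (h : Triple a b c)
    (hac : ‖GaussianInt.toComplex a‖ = ‖GaussianInt.toComplex c‖) :
    height a b c ≤ 2 * ‖GaussianInt.toComplex a‖ := by
  unfold height
  have h1 : GaussianInt.toComplex b = GaussianInt.toComplex c - GaussianInt.toComplex a := by
    rw [← map_sub]
    congr 1
    rw [← h.sum]
    ring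
  have h2 := norm_sub_le (GaussianInt.toComplex c) (GaussianInt.toComplex a)
  rw [← h1] at h2
  have h3 := norm_nonneg (GaussianInt.toComplex a)
  refine max_le (by linarith) (max_le (by linarith) (by linarith))

lemma norm_ge_one {z : GaussianInt} (hz : z ≠ 0) : 1 ≤ ‖GaussianInt.toComplex z‖ := by
  have h1 : (1 : ℝ) ≤ ‖GaussianInt.toComplex z‖ ^ 2 := by
    rw [norm_sq']
    have h6 : 0 < z.norm := (GaussianInt.norm_pos).2 hz
    exact_mod_cast h6
  by_contra hcon
  push Not at hcon
  have := pow_lt_one₀ (norm_nonneg (GaussianInt.toComplex z)) hcon two_ne_zero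
  linarith

lemma radZ_mul_le {x y : ℤ} (hx : x ≠ 0) (hy : y ≠ 0) : radZ (x * y) ≤ radZ x * |(y : ℝ)| := by
  classical
  have h1 : (x * y).natAbs.primeFactors = x.natAbs.primeFactors ∪ y.natAbs.primeFactors := by
    rw [Int.natAbs_mul, Nat.primeFactors_mul (Int.natAbs_ne_zero.2 hx) (Int.natAbs_ne_zero.2 hy)]
  have h2 : radZ y ≤ |(y : ℝ)| := by
    have h3 : ∏ p ∈ y.natAbs.primeFactors, p ≤ y.natAbs :=
      Nat.le_of_dvd (Int.natAbs_pos.2 hy) (Nat.prod_primeFactors_dvd _)
    unfold radZ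
    have h5 : ((y.natAbs : ℕ) : ℝ) = |(y : ℝ)| := by rw [Nat.cast_natAbs, Int.cast_abs]
    rw [← h5, ← Nat.cast_prod]
    exact Nat.cast_le.2 h3
  refine le_trans ?_ (mul_le_mul_of_nonneg_left h2 (radZ_pos x).le)
  unfold radZ
  rw [h1]
  have h4 := Finset.prod_union_inter (s₁ := x.natAbs.primeFactors) (s₂ := y.natAbs.primeFactors)
    (f := fun p : ℕ => (p : ℝ))
  rw [← h4]
  refine le_mul_of_one_le_right (Finset.prod_nonneg fun p _ => Nat.cast_nonneg p) ?_
  have h := Finset.prod_le_prod (s := x.natAbs.primeFactors ∩ y.natAbs.primeFactors)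
    (f := fun _ : ℕ => (1 : ℝ)) (g := fun p : ℕ => (p : ℝ)) (fun _ _ => zero_le_one) fun p hp => by
      exact_mod_cast (Nat.prime_of_mem_primeFactors (Finset.mem_inter.1 hp).1).one_lt.le
  simpa using h

lemma radZ_form {L M k n : ℤ} (hL : L ≠ 0) (hM : M ≠ 0) (hk : k ≠ 0) (hn : n ≠ 0) :
    radZ (L ^ 2 * M ^ 2 * (k * n)) = radZ ((L * n) * (M * k)) := by
  unfold radZ
  congr 1
  have h1 : L.natAbs ≠ 0 := Int.natAbs_ne_zero.2 hL
  have h2 : M.natAbs ≠ 0 := Int.natAbs_ne_zero.2 hM
  have h3 : k.natAbs ≠ 0 := Int.natAbs_ne_zero.2 hk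
  have h4 : n.natAbs ≠ 0 := Int.natAbs_ne_zero.2 hn
  simp only [Int.natAbs_mul, Int.natAbs_pow]
  rw [Nat.primeFactors_mul (by positivity) (by positivity), Nat.primeFactors_mul (by positivity) (by positivity),
    Nat.primeFactors_mul h3 h4, Nat.primeFactors_mul (by positivity) (by positivity),
    Nat.primeFactors_mul h1 h4, Nat.primeFactors_mul h2 h3, Nat.primeFactors_pow _ two_ne_zero,
    Nat.primeFactors_pow _ two_ne_zero]
  ext p
  simp only [Finset.mem_union]
  tauto

/-- the classical conjecture implies the one for the isosceles triples -/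
lemma classical_to_isosceles (h : ClassicalABC) : GaussianABC Isosceles := by
  intro ε hε
  set ε' : ℝ := min ε 1 with hε'
  have hε'0 : 0 < ε' := lt_min hε one_pos
  have hε'1 : ε' ≤ 1 := min_le_right _ _
  obtain ⟨C, hC, hC'⟩ := h (ε' / 2) (by positivity)
  refine ⟨min (C / 8) (1 / 2), lt_min (by positivity) (by norm_num), ?_⟩
  intro a b c hT hac S hS
  have hP : 1 ≤ ∏ Q ∈ S, ‖GaussianInt.toComplex Q‖ := by
    have h := Finset.prod_le_prod (s := S) (f := fun _ : GaussianInt => (1 : ℝ))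
      (g := fun Q : GaussianInt => ‖GaussianInt.toComplex Q‖) (fun _ _ => zero_le_one)
      fun Q hQ => norm_ge_one (hS.1 Q hQ).1.ne_zero
    simpa using h
  have ha1 := norm_ge_one hT.a0
  set A := ‖GaussianInt.toComplex a‖ with hA
  have hA0 : 0 < A := by linarith
  have hH1 : 1 ≤ height a b c := ha1.trans (le_max_left _ _)
  have hHle := height_le hT hac
  have hH : height a b c ^ (1 - ε) ≤ 2 * A ^ (1 - ε') := by
    calc height a b c ^ (1 - ε) ≤ height a b c ^ (1 - ε') :=
          Real.rpow_le_rpow_of_exponent_le hH1 (by linarith [min_le_left ε 1])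
      _ ≤ (2 * A) ^ (1 - ε') := Real.rpow_le_rpow (by linarith) hHle (by linarith)
      _ = 2 ^ (1 - ε') * A ^ (1 - ε') := Real.mul_rpow (by norm_num) hA0.le
      _ ≤ 2 * A ^ (1 - ε') := by
          refine mul_le_mul_of_nonneg_right ?_ (Real.rpow_nonneg hA0.le _)
          calc (2 : ℝ) ^ (1 - ε') ≤ 2 ^ (1 : ℝ) :=
                Real.rpow_le_rpow_of_exponent_le (by norm_num) (by linarith)
            _ = 2 := Real.rpow_one 2
  obtain ⟨L, M, k, hk, hLM, hcop, hLb, hL0⟩ := iso_struct hT hac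
  have hk0 : k ≠ 0 := by omega
  have hn0 : a.norm ≠ 0 := ne_of_gt (GaussianInt.norm_pos.2 hT.a0)
  have hAn : A ^ 2 = (a.norm : ℝ) := norm_sq' a
  by_cases hM : M = 0
  · -- degenerate case
    subst hM
    have h1 : IsUnit L := isCoprime_zero_right.1 hcop
    have h2 : L ^ 2 = 1 := by
      rcases Int.isUnit_iff.1 h1 with rfl | rfl <;> norm_num
    have h3 : a.norm = 1 := by
      have h4 : 0 < a.norm := GaussianInt.norm_pos.2 hT.a0
      rcases hk with rfl | rfl
      · linarith
      · exfalso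
        rw [h2] at hLM
        omega
    have h4 : A = 1 := by
      rw [h3] at hAn
      have h5 : A ^ 2 = 1 := by rw [hAn]; norm_num
      exact (pow_eq_one_iff_of_nonneg hA0.le two_ne_zero).1 h5
    rw [h4, Real.one_rpow, mul_one] at hH
    calc min (C / 8) (1 / 2) * height a b c ^ (1 - ε) ≤ (1 / 2) * 2 :=
          mul_le_mul (min_le_right _ _) hH (Real.rpow_nonneg (by linarith) _) (by norm_num)
      _ = 1 := by norm_num
      _ ≤ _ := hP
  · have h1 := hC' (L ^ 2) (M ^ 2) (k * a.norm) hLM (by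
      refine mul_ne_zero (mul_ne_zero (pow_ne_zero _ hL0) (pow_ne_zero _ hM)) (mul_ne_zero hk0 hn0))
      hcop.pow
    have e0 : (∏ p ∈ (L ^ 2 * M ^ 2 * (k * a.norm)).natAbs.primeFactors, (p : ℝ)) =
        radZ (L ^ 2 * M ^ 2 * (k * a.norm)) := rfl
    rw [e0, radZ_form hL0 hM hk0 hn0] at h1
    have h2 := radZ_mul_le (mul_ne_zero hL0 hn0) (mul_ne_zero hM hk0)
    have h3 : radZ (L * a.norm) ≤ 2 * ∏ Q ∈ S, ‖GaussianInt.toComplex Q‖ := by
      refine radZ_le hS fun Q hQ hQd => ?_
      rw [Int.cast_mul] at hQd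
      rcases hQ.dvd_or_dvd hQd with h4 | h4
      · exact (h4.trans hLb).trans ⟨a * c, by ring⟩
      · rw [Zsqrtd.norm_eq_mul_conj] at h4
        rcases hQ.dvd_or_dvd h4 with h5 | h5
        · exact h5.trans ⟨b * c, by ring⟩
        · -- `star a` is associated to `c`
          have hn : a.norm = c.norm := by
            have h1 : (a.norm : ℝ) = c.norm := by rw [← norm_sq', ← norm_sq', hac]
            exact_mod_cast h1
          have h6 : a * star a = c * star c := by
            rw [← Zsqrtd.norm_eq_mul_conj, ← Zsqrtd.norm_eq_mul_conj, hn]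
          have h7 : Q ∣ c * star c := by
            rw [← h6]
            exact h5.trans (dvd_mul_left _ _)
          rcases hQ.dvd_or_dvd h7 with h8 | h8
          · exact h8.trans ⟨a * b, by ring⟩
          · -- `Q` divides `star a` and `star c`: impossible
            exfalso
            have h9 : IsCoprime (star a) (star c) := by
              have := hT.copac.map (starRingEnd GaussianInt)
              simpa [starRingEnd_apply] using this
            exact hQ.not_isUnit (h9.isUnit_of_dvd' h5 h8)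
    -- the final estimate
    set n : ℝ := (a.norm : ℝ) with hn
    set kn : ℝ := (k : ℝ) * n with hkn
    have hk1 : (1 : ℝ) ≤ k := by
      rcases hk with rfl | rfl <;> norm_num
    have hk2 : (k : ℝ) ≤ 2 := by
      rcases hk with rfl | rfl <;> norm_num
    have hnpos : 0 < n := by
      rw [← hAn]
      positivity
    have hknpos : 0 < kn := by positivity
    have hMle : |(M : ℝ)| ≤ kn ^ (1 / 2 : ℝ) := by
      rw [← Real.sqrt_eq_rpow]
      apply Real.abs_le_sqrt
      have h4 : (L : ℝ) ^ 2 + (M : ℝ) ^ 2 = kn := by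
        rw [hkn, hn]
        exact_mod_cast hLM
      nlinarith [sq_nonneg (L : ℝ)]
    have h4 : C * kn ^ (1 - ε' / 2) ≤ radZ (L * a.norm) * (kn ^ (1 / 2 : ℝ) * 2) := by
      have h5 : kn ≤ max |((L ^ 2 : ℤ) : ℝ)| (max |((M ^ 2 : ℤ) : ℝ)| |((k * a.norm : ℤ) : ℝ)|) := by
        refine le_trans ?_ ((le_max_right _ _).trans (le_max_right _ _))
        push_cast
        exact le_abs_self _
      have h6 : kn ^ (1 - ε' / 2) ≤
          max |((L ^ 2 : ℤ) : ℝ)| (max |((M ^ 2 : ℤ) : ℝ)| |((k * a.norm : ℤ) : ℝ)|) ^ (1 - ε' / 2) :=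
        Real.rpow_le_rpow hknpos.le h5 (by linarith)
      refine (mul_le_mul_of_nonneg_left h6 hC.le).trans (h1.trans (h2.trans ?_))
      refine mul_le_mul_of_nonneg_left ?_ (radZ_pos _).le
      push_cast
      rw [abs_mul]
      have h7 : |(k : ℝ)| ≤ 2 := by
        rw [abs_of_nonneg (by linarith)]
        exact hk2
      exact mul_le_mul hMle h7 (abs_nonneg _) (Real.rpow_nonneg hknpos.le _)
    have h5 : C * kn ^ ((1 - ε') / 2) ≤ radZ (L * a.norm) * 2 := by
      have e1 : kn ^ (1 - ε' / 2) = kn ^ ((1 - ε') / 2) * kn ^ (1 / 2 : ℝ) := by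
        rw [← Real.rpow_add hknpos]
        congr 1
        ring
      rw [e1] at h4
      have h6 : 0 < kn ^ (1 / 2 : ℝ) := Real.rpow_pos_of_pos hknpos _
      refine le_of_mul_le_mul_right ?_ h6
      linarith
    have h6 : A ^ (1 - ε') ≤ kn ^ ((1 - ε') / 2) := by
      have e1 : A ^ (1 - ε') = (A ^ 2) ^ ((1 - ε') / 2) := by
        rw [← Real.rpow_natCast A 2, ← Real.rpow_mul hA0.le]
        congr 1
        push_cast
        ring
      rw [e1, hAn]
      exact Real.rpow_le_rpow hnpos.le (le_mul_of_one_le_left hnpos.le hk1) (by linarith)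
    have h7 : C * A ^ (1 - ε') ≤ 4 * ∏ Q ∈ S, ‖GaussianInt.toComplex Q‖ := by
      have := mul_le_mul_of_nonneg_left h6 hC.le
      linarith
    calc min (C / 8) (1 / 2) * height a b c ^ (1 - ε) ≤ C / 8 * (2 * A ^ (1 - ε')) :=
          mul_le_mul (min_le_left _ _) hH (Real.rpow_nonneg (by linarith) _) (by positivity)
      _ = (C * A ^ (1 - ε')) / 4 := by ring
      _ ≤ _ := by linarith

/-- the basic inequality for a coprime pair `A`, `C` with `A` divisible by `2 N` and small -/
lemma key {N : GaussianInt} {δ C0 ε : ℝ} (hC0 : 0 < C0) (hε : 0 < ε) (hε4 : ε ≤ 1 / 4)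
    (h : ∀ a b c : GaussianInt, Triple a b c → ThinIsosceles N δ a b c →
    ∀ S : Finset GaussianInt, IsPrimeSystem S (a * b * c) →
      C0 * height a b c ^ (1 - ε) ≤ ∏ Q ∈ S, ‖GaussianInt.toComplex Q‖)
    {A C : ℤ} (hA : A ≠ 0) (hC : C ≠ 0) (hCA : C - A ≠ 0) (hcop : IsCoprime A C)
    (hdvd : 2 * N ∣ (A : GaussianInt)) (hsmall : |(A : ℝ)| ≤ min (δ / 16) (1 / 2) * |(C : ℝ)|) :
    (1 - 4 * ε) * hh (emb (A : GaussianInt), emb (C : GaussianInt)) -
      (6 * Real.log 2 + 2 * |Real.log C0|) ≤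
      W (I (emb (A : GaussianInt), emb (C : GaussianInt))) := by
  have hCpos : 0 < |(C : ℝ)| := abs_pos.2 (by exact_mod_cast hC)
  have hApos : 0 < |(A : ℝ)| := abs_pos.2 (by exact_mod_cast hA)
  have hA2 : |(A : ℝ)| ≤ (1 / 2) * |(C : ℝ)| :=
    hsmall.trans (mul_le_mul_of_nonneg_right (min_le_right _ _) hCpos.le)
  have hAδ : |(A : ℝ)| ≤ (δ / 16) * |(C : ℝ)| :=
    hsmall.trans (mul_le_mul_of_nonneg_right (min_le_left _ _) hCpos.le)
  have hCA' : C + A ≠ 0 := by
    intro h0
    have h1 : (C : ℝ) = -A := by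
      have : (C : ℝ) + A = 0 := by exact_mod_cast h0
      linarith
    rw [h1, abs_neg] at hA2
    linarith
  set z : GaussianInt := ⟨C, A⟩ with hz
  have hzs : star z = ⟨C, -A⟩ := rfl
  have hzn : z.norm = C ^ 2 + A ^ 2 := by
    rw [hz, Zsqrtd.norm_def]
    ring
  have hznpos : 0 < z.norm := by
    rw [hzn]
    positivity
  have hz0 : z ≠ 0 := by
    intro h0
    rw [h0] at hznpos
    simp at hznpos
  have hzs0 : star z ≠ 0 := by
    intro h0
    exact hz0 (by rw [← star_star z, h0, star_zero])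
  set n : ℝ := (z.norm : ℝ) with hn
  have hnpos : 1 ≤ n := by
    rw [hn]
    exact_mod_cast hznpos
  have hnval : n = (C : ℝ) ^ 2 + (A : ℝ) ^ 2 := by
    rw [hn, hzn]
    push_cast
    ring
  have hzN : ‖GaussianInt.toComplex z‖ ^ 2 = n := norm_sq' z
  have hzsN : ‖GaussianInt.toComplex (star z)‖ = ‖GaussianInt.toComplex z‖ := by
    rw [GaussianInt.toComplex_star]
    exact RCLike.norm_conj _
  -- `2` divides `A`
  have h2A : (2 : ℤ) ∣ A := by
    have h1 : ((2 : ℤ) : GaussianInt) ∣ (A : GaussianInt) := by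
      push_cast
      exact (dvd_mul_right _ _).trans hdvd
    exact (Zsqrtd.intCast_dvd_intCast 2 A).1 h1
  have hodd : Odd (C ^ 2 + A ^ 2) := by
    have hC2 : ¬ (2 : ℤ) ∣ C := by
      intro h1
      have := hcop.isUnit_of_dvd' h2A h1
      rw [Int.isUnit_iff] at this
      omega
    have hCo : Odd C := by
      rw [← Int.not_even_iff_odd, even_iff_two_dvd]
      exact hC2
    have hAe : Even A := even_iff_two_dvd.2 h2A
    exact (hCo.pow).add_even (hAe.pow_of_ne_zero two_ne_zero)
  have hzz : IsCoprime z (star z) := by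
    obtain ⟨u, v, huv⟩ := hcop
    obtain ⟨k, hk⟩ := hodd
    -- `2 = u (-i)(z - star z) + v (z + star z)`
    have e1 : (2 : GaussianInt) = (u : GaussianInt) * (⟨0, -1⟩ * (z - star z)) +
        (v : GaussianInt) * (z + star z) := by
      rw [hzs, hz]
      ext
      · simp
        linear_combination (-2) * huv
      · simp
    have e2 : z * star z = 2 * (k : GaussianInt) + 1 := by
      rw [← Zsqrtd.norm_eq_mul_conj, hzn, hk]
      push_cast
      ring
    refine ⟨star z - (k : GaussianInt) * ((u : GaussianInt) * ⟨0, -1⟩ + v),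
      -(k : GaussianInt) * ((v : GaussianInt) - (u : GaussianInt) * ⟨0, -1⟩), ?_⟩
    linear_combination e2 + (k : GaussianInt) * e1
  -- the triple
  set a : GaussianInt := star z ^ 4 with ha
  set c : GaussianInt := z ^ 4 with hc
  set b : GaussianInt := c - a with hb
  have hbval : b = (⟨0, 8⟩ : GaussianInt) * ((A * C * (C - A) : ℤ) : GaussianInt) * ((C + A : ℤ) : GaussianInt) := by
    rw [hb, hc, ha, hzs, hz]
    ext
    · simp [pow_succ]
      ring
    · simp [pow_succ]
      ring
  have hACA : A * C * (C - A) ≠ 0 := mul_ne_zero (mul_ne_zero hA hC) hCA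
  have hACA' : ((A * C * (C - A) : ℤ) : GaussianInt) ≠ 0 := by exact_mod_cast hACA
  have hCAG : ((C + A : ℤ) : GaussianInt) ≠ 0 := by exact_mod_cast hCA'
  have h8 : (⟨0, 8⟩ : GaussianInt) ≠ 0 := by decide
  have hb0 : b ≠ 0 := by
    rw [hbval]
    exact mul_ne_zero (mul_ne_zero h8 hACA') hCAG
  have ha0 : a ≠ 0 := pow_ne_zero _ hzs0
  have hc0 : c ≠ 0 := pow_ne_zero _ hz0
  have hcopac : IsCoprime a c := (hzz.symm.pow_left).pow_right
  have hT : Triple a b c := by
    refine ⟨by rw [hb]; ring, mul_ne_zero (mul_ne_zero ha0 hb0) hc0, ?_⟩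
    obtain ⟨s, t, hst⟩ := hcopac
    refine ⟨s + t, t, ?_⟩
    rw [hb]
    linear_combination hst
  have hac : ‖GaussianInt.toComplex a‖ = ‖GaussianInt.toComplex c‖ := by
    rw [ha, hc, map_pow, map_pow, norm_pow, norm_pow, hzsN]
  have hcn : ‖GaussianInt.toComplex c‖ = n ^ 2 := by
    rw [hc, map_pow, norm_pow, ← hzN]
    ring
  have hIso : ThinIsosceles N δ a b c := by
    refine ⟨hac, ?_, ?_⟩
    · rw [hac, hcn, hbval, map_mul, map_mul, norm_mul, norm_mul, map_intCast, map_intCast,
        Complex.norm_intCast, Complex.norm_intCast]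
      have e8 : ‖GaussianInt.toComplex (⟨0, 8⟩ : GaussianInt)‖ = 8 := by
        rw [GaussianInt.toComplex_def]
        simp
      rw [e8]
      push_cast
      rw [abs_mul, abs_mul]
      set x := |(A : ℝ)| with hx
      set y := |(C : ℝ)| with hy
      have h1 : |(C : ℝ) - A| * |(C : ℝ) + A| ≤ 2 * y ^ 2 := by
        rw [← abs_mul, abs_le]
        have e1 : y ^ 2 = (C : ℝ) ^ 2 := sq_abs _
        have e2 : x ^ 2 = (A : ℝ) ^ 2 := sq_abs _
        have h2 : x ^ 2 ≤ y ^ 2 := pow_le_pow_left₀ (abs_nonneg _) (by linarith) 2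
        constructor
        · nlinarith [sq_nonneg y]
        · nlinarith [sq_nonneg x, sq_nonneg y]
      have h3 : n ^ 2 ≥ y ^ 4 := by
        have e1 : y ^ 2 = (C : ℝ) ^ 2 := sq_abs _
        have h4 : y ^ 2 ≤ n := by
          rw [hnval, e1]
          nlinarith [sq_nonneg (A : ℝ)]
        calc y ^ 4 = (y ^ 2) ^ 2 := by ring
          _ ≤ n ^ 2 := pow_le_pow_left₀ (by positivity) h4 2
      have hδ0 : 0 < δ := by
        by_contra hcon
        push Not at hcon
        have : δ / 16 * y ≤ 0 := mul_nonpos_of_nonpos_of_nonneg (by linarith) hCpos.le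
        linarith
      calc 8 * (x * y * |(C : ℝ) - A|) * |(C : ℝ) + A| =
          8 * x * y * (|(C : ℝ) - A| * |(C : ℝ) + A|) := by ring
        _ ≤ 8 * x * y * (2 * y ^ 2) := mul_le_mul_of_nonneg_left h1 (by positivity)
        _ ≤ 8 * (δ / 16 * y) * y * (2 * y ^ 2) := by gcongr
        _ = δ * y ^ 4 := by ring
        _ ≤ δ * n ^ 2 := mul_le_mul_of_nonneg_left h3 hδ0.le
    · have h1 : N ∣ (A : GaussianInt) := (dvd_mul_left _ _).trans hdvd
      rw [hbval]
      refine h1.trans ⟨⟨0, 8⟩ * ((C * (C - A) : ℤ) : GaussianInt) * ((C + A : ℤ) : GaussianInt), ?_⟩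
      push_cast
      ring
  obtain ⟨S, hS⟩ := exists_system hT.ne
  have h1 := h a b c hT hIso S hS
  have hHge : n ^ 2 ≤ height a b c := by
    rw [← hcn]
    exact (le_max_right _ _).trans (le_max_right _ _)
  have hHpos : 0 < height a b c := by
    have : 0 < n ^ 2 := by positivity
    linarith
  have hlog : Real.log C0 + (1 - ε) * (2 * Real.log n) ≤
      Real.log (∏ Q ∈ S, ‖GaussianInt.toComplex Q‖) := by
    have h2 := Real.log_le_log (by positivity) h1
    rw [Real.log_mul hC0.ne' (Real.rpow_pos_of_pos hHpos _).ne', Real.log_rpow hHpos] at h2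
    have h3 : 2 * Real.log n ≤ Real.log (height a b c) := by
      have h4 := Real.log_le_log (by positivity) hHge
      rw [Real.log_pow] at h4
      push_cast at h4
      exact h4
    have h5 := mul_le_mul_of_nonneg_left h3 (by linarith : (0 : ℝ) ≤ 1 - ε)
    linarith
  have hWS := W_gauss hT.ne hS
  -- the places
  have hI : I (emb (A : GaussianInt), emb (C : GaussianInt)) =
      {v : FinitePlace K4 | e ((A * C * (C - A) : ℤ) : GaussianInt) ∈ v.maximalIdeal.asIdeal} := by
    have h2 := I_gauss (a := (A : GaussianInt)) (b := (C : GaussianInt) - A) (c := (C : GaussianInt))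
      (by ring) (by
        have := hcop.map (Int.castRingHom GaussianInt)
        simpa using this)
    rw [h2]
    have e1 : ((A * C * (C - A) : ℤ) : GaussianInt) = (A : GaussianInt) * ((C : GaussianInt) - A) * C := by
      push_cast
      ring
    rw [e1]
  have hfinI : (I (emb (A : GaussianInt), emb (C : GaussianInt))).Finite := by
    rw [hI]
    exact (W_le hACA').1
  have hsub : {v : FinitePlace K4 | e (a * b * c) ∈ v.maximalIdeal.asIdeal} ⊆
      ((I (emb (A : GaussianInt), emb (C : GaussianInt)) ∪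
        {v : FinitePlace K4 | e 2 ∈ v.maximalIdeal.asIdeal}) ∪
        {v : FinitePlace K4 | e ((C + A : ℤ) : GaussianInt) ∈ v.maximalIdeal.asIdeal}) ∪
        {v : FinitePlace K4 | e (z * star z) ∈ v.maximalIdeal.asIdeal} := by
    intro v hv
    have hp := v.maximalIdeal.isPrime
    rw [hI]
    simp only [Set.mem_union, Set.mem_ofPred_eq] at hv ⊢
    rw [map_mul, map_mul, hp.mul_mem_iff_mem_or_mem, hp.mul_mem_iff_mem_or_mem] at hv
    rcases hv with (hv | hv) | hv
    · right
      rw [ha, map_pow] at hv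
      rw [map_mul]
      exact v.maximalIdeal.asIdeal.mul_mem_left _ (hp.mem_of_pow_mem _ hv)
    · left
      rw [hbval, map_mul, map_mul, hp.mul_mem_iff_mem_or_mem, hp.mul_mem_iff_mem_or_mem] at hv
      rcases hv with (hv | hv) | hv
      · left; right
        have e1 : (⟨0, 8⟩ : GaussianInt) = 2 ^ 3 * ⟨0, 1⟩ := by decide
        rw [e1, map_mul, map_pow, hp.mul_mem_iff_mem_or_mem] at hv
        rcases hv with hv | hv
        · exact hp.mem_of_pow_mem _ hv
        · exfalso
          apply hp.ne_top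
          rw [Ideal.eq_top_iff_one]
          have e2 : (1 : GaussianInt) = ⟨0, -1⟩ * ⟨0, 1⟩ := by decide
          rw [← map_one e, e2, map_mul]
          exact v.maximalIdeal.asIdeal.mul_mem_left _ hv
      · left; left
        exact hv
      · right
        exact hv
    · right
      rw [hc, map_pow] at hv
      rw [map_mul]
      exact v.maximalIdeal.asIdeal.mul_mem_right _ (hp.mem_of_pow_mem _ hv)
  obtain ⟨f2, w2⟩ := W_le (r := 2) two_ne_zero
  obtain ⟨f3, w3⟩ := W_le hCAG
  obtain ⟨f4, w4⟩ := W_le (mul_ne_zero hz0 hzs0)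
  have hW : W {v : FinitePlace K4 | e (a * b * c) ∈ v.maximalIdeal.asIdeal} ≤
      W (I (emb (A : GaussianInt), emb (C : GaussianInt))) +
        2 * Real.log (max ‖GaussianInt.toComplex 2‖ 1) +
        2 * Real.log (max ‖GaussianInt.toComplex ((C + A : ℤ) : GaussianInt)‖ 1) +
        2 * Real.log (max ‖GaussianInt.toComplex (z * star z)‖ 1) := by
    refine (W_mono (((hfinI.union f2).union f3).union f4) hsub).trans ?_
    refine (W_union ((hfinI.union f2).union f3) f4).trans ?_
    have h3 := W_union (hfinI.union f2) f3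
    have h4 := W_union hfinI f2
    linarith
  have l2 : Real.log (max ‖GaussianInt.toComplex 2‖ 1) = Real.log 2 := by
    have : GaussianInt.toComplex 2 = 2 := map_ofNat _ 2
    rw [this]
    norm_num
  have l3 : 2 * Real.log (max ‖GaussianInt.toComplex ((C + A : ℤ) : GaussianInt)‖ 1) ≤
      Real.log 2 + Real.log n := by
    rw [map_intCast, Complex.norm_intCast]
    have h1 : 1 ≤ |((C + A : ℤ) : ℝ)| := by
      rw [← Int.cast_abs]
      exact_mod_cast Int.one_le_abs hCA'
    rw [max_eq_left h1]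
    have h2 : |((C + A : ℤ) : ℝ)| ^ 2 ≤ 2 * n := by
      rw [sq_abs, hnval]
      push_cast
      nlinarith [sq_nonneg ((C : ℝ) - A)]
    have h3 := Real.log_le_log (by positivity) h2
    rw [Real.log_pow, Real.log_mul two_ne_zero (by positivity)] at h3
    push_cast at h3 ⊢
    exact h3
  have l4 : 2 * Real.log (max ‖GaussianInt.toComplex (z * star z)‖ 1) = 2 * Real.log n := by
    rw [map_mul, norm_mul, hzsN, ← sq, hzN, max_eq_left hnpos]
  have l5 : hh (emb (A : GaussianInt), emb (C : GaussianInt)) ≤ Real.log n := by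
    rw [hh_gauss (by
        have := hcop.map (Int.castRingHom GaussianInt)
        simpa using this) (by exact_mod_cast hC), map_intCast, map_intCast, Complex.norm_intCast,
      Complex.norm_intCast, max_eq_right (by linarith)]
    have h2 : |(C : ℝ)| ^ 2 ≤ n := by
      rw [sq_abs, hnval]
      nlinarith [sq_nonneg (A : ℝ)]
    have h3 := Real.log_le_log (by positivity) h2
    rw [Real.log_pow] at h3
    push_cast at h3
    exact h3
  have l6 : (1 - 4 * ε) * hh (emb (A : GaussianInt), emb (C : GaussianInt)) ≤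
      (1 - 4 * ε) * Real.log n := mul_le_mul_of_nonneg_left l5 (by linarith)
  have l7 := neg_abs_le (Real.log C0)
  have l8 : 0 < Real.log 2 := Real.log_pos (by norm_num)
  rw [hWS, l2, l4] at hW
  linarith

/-- the conjecture for the thin isosceles triples implies the classical one -/
lemma thin_to_classical {N : GaussianInt} (hN : N ≠ 0) {δ : ℝ} (hδ : 0 < δ)
    (h : GaussianABC (ThinIsosceles N δ)) : ClassicalABC := by
  intro ε hε
  have h2N : 2 * N ≠ 0 := mul_ne_zero two_ne_zero hN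
  obtain ⟨D, hD, hnear⟩ := rat_near h2N (δ := min (δ / 16) (1 / 2)) (lt_min (by positivity) (by norm_num))
  have hD0 : (0 : ℝ) < D := by exact_mod_cast hD
  set ε1 : ℝ := min (ε / D / 4) (1 / 4) with hε1
  have hε1pos : 0 < ε1 := lt_min (by positivity) (by norm_num)
  obtain ⟨C0, hC0, hC0'⟩ := h ε1 hε1pos
  obtain ⟨K, hK⟩ := hnear ε hε.le ⟨6 * Real.log 2 + 2 * |Real.log C0|, fun A C hA hC hCA hcop hd hs => by
    have h1 := key hC0 hε1pos (min_le_right _ _) hC0' hA hC hCA hcop hd hs
    have h2 : (1 - ε / D) * hh (emb (A : GaussianInt), emb (C : GaussianInt)) ≤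
        (1 - 4 * ε1) * hh (emb (A : GaussianInt), emb (C : GaussianInt)) := by
      refine mul_le_mul_of_nonneg_right ?_ (hh_nonneg _)
      have := min_le_left (ε / D / 4) (1 / 4)
      linarith
    linarith⟩
  refine ⟨Real.exp (-(|1 - ε| * Real.log 2 + |K| / 2)), Real.exp_pos _, ?_⟩
  intro a b c hsum hne hcop
  have ha : a ≠ 0 := fun h0 => hne (by rw [h0]; ring)
  have hb : b ≠ 0 := fun h0 => hne (by rw [h0]; ring)
  have hc : c ≠ 0 := fun h0 => hne (by rw [h0]; ring)
  have hcb : c - a = b := by omega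
  have h1 := hK a c ha hc (by rw [hcb]; exact hb)
  have hcopac : IsCoprime a c := by
    rw [← hsum]
    exact hcop.mul_add_left_right 1 |> fun h' => by simpa [add_comm] using h'
  have hcopG : IsCoprime (a : GaussianInt) (c : GaussianInt) := by
    have := hcopac.map (Int.castRingHom GaussianInt)
    simpa using this
  have hI := I_gauss (a := (a : GaussianInt)) (b := (b : GaussianInt)) (c := (c : GaussianInt))
    (by rw [← hsum]; push_cast; ring) hcopG
  have e1 : (a : GaussianInt) * b * c = ((a * b * c : ℤ) : GaussianInt) := by push_cast; ring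
  rw [e1] at hI
  have h2 := W_rat hne
  rw [← hI] at h2
  have h3 : hh (emb (a : GaussianInt), emb (c : GaussianInt)) =
      2 * Real.log (max |(a : ℝ)| |(c : ℝ)|) := by
    rw [hh_gauss hcopG (by exact_mod_cast hc), map_intCast, map_intCast, Complex.norm_intCast,
      Complex.norm_intCast]
  set m : ℝ := max |(a : ℝ)| |(c : ℝ)| with hm
  set M : ℝ := max |(a : ℝ)| (max |(b : ℝ)| |(c : ℝ)|) with hM
  have ha1 : 0 < |(a : ℝ)| := abs_pos.2 (by exact_mod_cast ha)
  have hm0 : 0 < m := ha1.trans_le (le_max_left _ _)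
  have hmM : m ≤ M := max_le (le_max_left _ _) ((le_max_right _ _).trans (le_max_right _ _))
  have hM0 : 0 < M := hm0.trans_le hmM
  have hMm : M ≤ 2 * m := by
    have h4 : |(b : ℝ)| ≤ |(c : ℝ)| + |(a : ℝ)| := by
      have h5 : (b : ℝ) = c - a := by rw [← hcb]; push_cast; ring
      rw [h5]
      exact abs_sub _ _
    have h5 := le_max_left |(a : ℝ)| |(c : ℝ)|
    have h6 := le_max_right |(a : ℝ)| |(c : ℝ)|
    exact max_le (by linarith) (max_le (by linarith) (by linarith))
  have hR := radZ_pos (a * b * c)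
  show Real.exp _ * M ^ (1 - ε) ≤ radZ (a * b * c)
  rw [← Real.log_le_log_iff (mul_pos (Real.exp_pos _) (Real.rpow_pos_of_pos hM0 _)) hR,
    Real.log_mul (Real.exp_pos _).ne' (Real.rpow_pos_of_pos hM0 _).ne', Real.log_exp,
    Real.log_rpow hM0]
  have h4 : |Real.log M - Real.log m| ≤ Real.log 2 := by
    have h5 := Real.log_le_log hm0 hmM
    have h6 := Real.log_le_log hM0 hMm
    rw [Real.log_mul two_ne_zero hm0.ne'] at h6
    rw [abs_of_nonneg (by linarith)]
    linarith
  have h5 : (1 - ε) * (Real.log M - Real.log m) ≤ |1 - ε| * Real.log 2 := by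
    calc (1 - ε) * (Real.log M - Real.log m) ≤ |(1 - ε) * (Real.log M - Real.log m)| := le_abs_self _
      _ = |1 - ε| * |Real.log M - Real.log m| := abs_mul _ _
      _ ≤ |1 - ε| * Real.log 2 := mul_le_mul_of_nonneg_left h4 (abs_nonneg _)
  have h6 := le_abs_self K
  rw [h3] at h1
  linarith

/-- Let `N ≠ 0` be a Gaussian integer and `δ > 0`. The classical abc conjecture over `ℤ`, the abc
conjecture over `ℤ[i]` for the coprime triples `a + b = c` with `|a| = |c|`, and the abc conjecture over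
`ℤ[i]` for the coprime triples with `|a| = |c|`, `|b| ≤ δ |a|` and `N ∣ b`, are equivalent. -/
theorem result (N : GaussianInt) (hN : N ≠ 0) (δ : ℝ) (hδ : 0 < δ) :
    (GaussianABC Isosceles ↔ ClassicalABC) ∧ (GaussianABC (ThinIsosceles N δ) ↔ ClassicalABC) := by
  have h1 : GaussianABC Isosceles → GaussianABC (ThinIsosceles N δ) := by
    intro h ε hε
    obtain ⟨C, hC, hC'⟩ := h ε hε
    exact ⟨C, hC, fun a b c hT hP => hC' a b c hT hP.1⟩
  exact ⟨⟨fun h => thin_to_classical hN hδ (h1 h), classical_to_isosceles⟩,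
    ⟨thin_to_classical hN hδ, fun h => h1 (classical_to_isosceles h)⟩⟩

end Pool.Agent.Results.MP_dc323a_nt.IsoscelesTriples
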