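import Pool.Agent.V8H8.AB.GaussC

/-!
# The abc conjecture over the Gaussian integers is decided near one cusp, in one direction

Let `N ≠ 0` be a Gaussian integer, `δ > 0`, `u` a complex number of absolute value one and `θ > 0`.
The abc conjecture over `ℤ[i]` is true if it is true for the coprime triples `a + b = c` with `N ∣ a`,
`|a| ≤ δ |c|` and the direction of `a / c` within `θ` of `u`. More precisely there is `D ≥ 1` such
that `rad(abc) ≥ C max ^ (1 - η / D)` for these triples implies `rad(abc) ≥ C' max ^ (1 - η)` for all.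

The proof uses three maps of the line which are unramified outside the cusps: `t ↦ t ^ n`, whose
values are near a cusp at all places concerned for some bounded `n`;
`t ↦ -16 t (1 - t) / (2 t - 1) ^ 4`, which sends the three cusps to one; and the map
`t ↦ t ((t + β) / (1 + β t)) ^ 4`, `β = -1 + 2 i`, of degree five, the multiplication by `2 + i` (up to
a unit) on the elliptic curve with complex multiplication by `ℤ[i]` modulo its automorphisms, which
near the cusp `0` is a rotation by the argument of `-7 + 24 i` followed by a dilation; this argument is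
not a rational multiple of `π`.
-/

set_option autoImplicit false

namespace Pool.Agent.Results.MP_dc323a_nt.OneCuspOneDirection

/-- coprime triples `a + b = c` with `a b c ≠ 0` -/
structure Triple (a b c : GaussianInt) : Prop where
  sum : a + b = c
  ne : a * b * c ≠ 0
  cop : IsCoprime a b

/-- `S` contains exactly one Gaussian prime from each associate class of Gaussian primes
dividing `x` -/
def IsPrimeSystem (S : Finset GaussianInt) (x : GaussianInt) : Prop :=
  (∀ Q ∈ S, Prime Q ∧ Q ∣ x) ∧
  (∀ Q : GaussianInt, Prime Q → Q ∣ x → ∃ R ∈ S, Associated Q R) ∧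
  (∀ Q ∈ S, ∀ R ∈ S, Associated Q R → Q = R)

/-- the largest absolute value of the members of a triple -/
noncomputable def height (a b c : GaussianInt) : ℝ :=
  max ‖GaussianInt.toComplex a‖ (max ‖GaussianInt.toComplex b‖ ‖GaussianInt.toComplex c‖)

/-- the direction `z / |z|` of a complex number -/
noncomputable def direction (z : ℂ) : ℂ := z / (‖z‖ : ℂ)

/-- `N ∣ a`, `|a| ≤ δ |c|`, and the direction of `a / c` is within `θ` of `u` -/
def Near (N : GaussianInt) (δ : ℝ) (u : ℂ) (θ : ℝ) (a _b c : GaussianInt) : Prop :=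
  N ∣ a ∧ ‖GaussianInt.toComplex a‖ ≤ δ * ‖GaussianInt.toComplex c‖ ∧
    ‖direction (GaussianInt.toComplex a / GaussianInt.toComplex c) - u‖ ≤ θ

/-- with some `C > 0`, the inequality `rad(abc) ≥ C max {|a|, |b|, |c|} ^ κ` holds for all triples
satisfying `P` -/
def Holds (P : GaussianInt → GaussianInt → GaussianInt → Prop) (κ : ℝ) : Prop :=
  ∃ C : ℝ, 0 < C ∧ ∀ a b c : GaussianInt, Triple a b c → P a b c →
    ∀ S : Finset GaussianInt, IsPrimeSystem S (a * b * c) →
      C * height a b c ^ κ ≤ ∏ Q ∈ S, ‖GaussianInt.toComplex Q‖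

open NumberField Pool.Agent.V8H8.AB
open Pool.Agent.TH402.AK (K4 emb emb_inj e Quadrant quadrant_uniq exists_quadrant quad_finite)

lemma exists_system {n : GaussianInt} (hn : n ≠ 0) : ∃ S, IsPrimeSystem S n := by
  classical
  refine ⟨(quad_finite hn).toFinset, ?_, ?_, ?_⟩
  · intro Q hQ
    rw [Set.Finite.mem_toFinset] at hQ
    exact ⟨hQ.1, hQ.2.1⟩
  · intro Q hQ hQn
    obtain ⟨w, hw, hQw⟩ := exists_quadrant hQ.ne_zero
    refine ⟨w, ?_, hQw⟩
    rw [Set.Finite.mem_toFinset]
    exact ⟨hQw.prime hQ, hQw.symm.dvd.trans hQn, hw⟩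
  · intro Q hQ R hR h
    rw [Set.Finite.mem_toFinset] at hQ hR
    exact quadrant_uniq hQ.2.2 hR.2.2 h

lemma norm_pos' {z : GaussianInt} (hz : z ≠ 0) : 0 < ‖GaussianInt.toComplex z‖ := by
  rw [norm_pos_iff]
  intro h0
  exact hz (GaussianInt.toComplex_injective (h0.trans (map_zero _).symm))

lemma Triple.a0 {a b c : GaussianInt} (h : Triple a b c) : a ≠ 0 := by
  rintro rfl
  exact h.ne (by ring)

lemma Triple.b0 {a b c : GaussianInt} (h : Triple a b c) : b ≠ 0 := by
  rintro rfl
  exact h.ne (by ring)

lemma Triple.c0 {a b c : GaussianInt} (h : Triple a b c) : c ≠ 0 := by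
  rintro rfl
  exact h.ne (by ring)

lemma Triple.copac {a b c : GaussianInt} (h : Triple a b c) : IsCoprime a c := by
  rw [← h.sum]
  exact h.cop.mul_add_left_right 1 |> fun h' => by simpa [add_comm] using h'

lemma Triple.valid {a b c : GaussianInt} (h : Triple a b c) : Valid (emb a, emb c) := by
  refine ⟨emb_ne h.a0, emb_ne h.c0, ?_⟩
  show emb c - emb a ≠ 0
  rw [← map_sub]
  apply emb_ne
  rw [← h.sum, add_sub_cancel_left]
  exact h.b0

/-- the height and the one of the pair -/
lemma height_log {a b c : GaussianInt} (h : Triple a b c) :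
    |2 * Real.log (height a b c) - hh (emb a, emb c)| ≤ 2 * Real.log 2 := by
  rw [hh_gauss h.copac h.c0]
  set A := ‖GaussianInt.toComplex a‖ with hA
  set B := ‖GaussianInt.toComplex b‖ with hB
  set C := ‖GaussianInt.toComplex c‖ with hC
  have a0 : 0 < A := norm_pos' h.a0
  have hM : 0 < max A C := lt_of_lt_of_le a0 (le_max_left _ _)
  have hBle : B ≤ 2 * max A C := by
    have e1 : GaussianInt.toComplex b = GaussianInt.toComplex c - GaussianInt.toComplex a := by
      rw [← map_sub]
      congr 1
      rw [← h.sum]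
      ring
    rw [hB, e1]
    have h1 := norm_sub_le (GaussianInt.toComplex c) (GaussianInt.toComplex a)
    have h2 := le_max_left A C
    have h3 := le_max_right A C
    linarith
  have h1 : max A C ≤ height a b c := by
    unfold height
    exact max_le (le_max_left _ _) ((le_max_right _ _).trans (le_max_right _ _))
  have h2 : height a b c ≤ 2 * max A C := by
    unfold height
    have h3 := le_max_left A C
    have h4 := le_max_right A C
    refine max_le (by linarith) (max_le hBle (by linarith))
  have h3 := Real.log_le_log hM h1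
  have h4 := Real.log_le_log (hM.trans_le h1) h2
  rw [Real.log_mul two_ne_zero hM.ne'] at h4
  have h5 : 0 < Real.log 2 := Real.log_pos (by norm_num)
  rw [abs_le]
  constructor <;> linarith

lemma height_pos {a b c : GaussianInt} (h : Triple a b c) : 0 < height a b c :=
  lt_of_lt_of_le (norm_pos' h.a0) (le_max_left _ _)

lemma prod_pos' {n : GaussianInt} {S : Finset GaussianInt} (hS : IsPrimeSystem S n) :
    0 < ∏ Q ∈ S, ‖GaussianInt.toComplex Q‖ :=
  Finset.prod_pos fun Q hQ => norm_pos' (hS.1 Q hQ).1.ne_zero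

lemma W_eq_log {a b c : GaussianInt} (h : Triple a b c) {S : Finset GaussianInt}
    (hS : IsPrimeSystem S (a * b * c)) :
    W (I (emb a, emb c)) = 2 * Real.log (∏ Q ∈ S, ‖GaussianInt.toComplex Q‖) := by
  rw [I_gauss h.sum h.copac]
  exact W_gauss h.ne hS

/-- Let `N ≠ 0` be a Gaussian integer, `δ > 0`, `|u| = 1` and `θ > 0`. There is `D ≥ 1` such that for
every `η ≥ 0`: if `rad(abc) ≥ C max ^ (1 - η / D)`, with some `C > 0`, for the coprime triples
`a + b = c` with `N ∣ a`, `|a| ≤ δ |c|` and the direction of `a / c` within `θ` of `u`, then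
`rad(abc) ≥ C' max ^ (1 - η)`, with some `C' > 0`, for all coprime triples. Hence the abc conjecture
over the Gaussian integers is equivalent to the abc conjecture for these triples. -/
theorem result (N : GaussianInt) (hN : N ≠ 0) (δ : ℝ) (hδ : 0 < δ) (u : ℂ) (hu : ‖u‖ = 1)
    (θ : ℝ) (hθ : 0 < θ) :
    (∃ D : ℕ, 1 ≤ D ∧ ∀ η : ℝ, 0 ≤ η → Holds (Near N δ u θ) (1 - η / D) →
      Holds (fun _ _ _ => True) (1 - η)) ∧
    ((∀ ε : ℝ, 0 < ε → Holds (fun _ _ _ => True) (1 - ε)) ↔
      ∀ ε : ℝ, 0 < ε → Holds (Near N δ u θ) (1 - ε)) := by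
  have main : ∃ D : ℕ, 1 ≤ D ∧ ∀ η : ℝ, 0 ≤ η → Holds (Near N δ u θ) (1 - η / D) →
      Holds (fun _ _ _ => True) (1 - η) := by
    obtain ⟨τ, hτ, hw⟩ := exists_tau
    obtain ⟨D, hD, h⟩ := gauss_pairs hτ hw hN hδ hu hθ
    refine ⟨D, hD, fun η hη => ?_⟩
    rintro ⟨C0, hC0, hC⟩
    set κ : ℝ := 1 - η / D with hκ
    obtain ⟨C1, hC1⟩ := h η hη ⟨|κ| * (2 * Real.log 2) - 2 * Real.log C0, fun p hp hU => by
      obtain ⟨a, c, l, hl, hc0, hcop, rfl⟩ := exists_coprime p hp.2.1
      obtain ⟨v1, v2, v3⟩ := hp
      obtain ⟨u1, u2, u3⟩ := hU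
      simp only at v1 v2 v3 u1 u2 u3
      have ha0 : a ≠ 0 := by
        rintro rfl
        apply v1
        rw [map_zero, mul_zero]
      have hca : c - a ≠ 0 := by
        intro h0
        apply v3
        rw [← mul_sub, ← map_sub, h0, map_zero, mul_zero]
      have hT : Triple a (c - a) c := by
        refine ⟨by ring, mul_ne_zero (mul_ne_zero ha0 hca) hc0, ?_⟩
        obtain ⟨x, y, hxy⟩ := hcop
        exact ⟨x + y, y, by linear_combination hxy⟩
      have hl0 : ∀ v : FinitePlace K4, 0 < v l := fun v => FinitePlace.pos_iff.2 hl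
      have hτl : τ l ≠ 0 := (map_ne_zero τ).2 hl
      have hNear : Near N δ u θ a (c - a) c := by
        refine ⟨dvd_of_val hN fun v hv => ?_, ?_, ?_⟩
        · have h1 := u1 v hv
          rw [map_mul, map_mul] at h1
          have h2 : v l * v (emb a) ≤ v l * (v (emb N) * v (emb c)) := by
            calc v l * v (emb a) ≤ v (emb N) * (v l * v (emb c)) := h1
              _ = v l * (v (emb N) * v (emb c)) := by ring
          have h3 := le_of_mul_le_mul_left h2 (hl0 v)
          have h4 := fin_le_one v c
          have h5 : 0 ≤ v (emb N) := apply_nonneg v _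
          exact h3.trans (mul_le_of_le_one_right h5 h4)
        · rw [map_mul, map_mul, norm_mul, norm_mul, hτ, hτ] at u2
          have h1 : 0 < ‖τ l‖ := norm_pos_iff.2 hτl
          have h2 : ‖τ l‖ * ‖GaussianInt.toComplex a‖ ≤ ‖τ l‖ * (δ * ‖GaussianInt.toComplex c‖) := by
            calc ‖τ l‖ * ‖GaussianInt.toComplex a‖ ≤ δ * (‖τ l‖ * ‖GaussianInt.toComplex c‖) := u2
              _ = ‖τ l‖ * (δ * ‖GaussianInt.toComplex c‖) := by ring
          exact le_of_mul_le_mul_left h2 h1
        · rw [map_mul, map_mul, hτ, hτ, mul_div_mul_left _ _ hτl] at u3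
          exact u3
      obtain ⟨S, hS⟩ := exists_system hT.ne
      have h1 := hC a (c - a) c hT hNear S hS
      have h2 := W_eq_log hT hS
      have h3 := height_log hT
      have e1 := I_smul hl (emb a, emb c)
      have e2 := hh_smul hl (emb a, emb c)
      simp only at e1 e2
      rw [e1, e2, h2]
      have hH := height_pos hT
      have h4 := Real.log_le_log (by positivity) h1
      rw [Real.log_mul hC0.ne' (Real.rpow_pos_of_pos hH _).ne', Real.log_rpow hH] at h4
      have h5 : κ * (hh (emb a, emb c) - 2 * Real.log (height a (c - a) c)) ≤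
          |κ| * (2 * Real.log 2) := by
        calc κ * (hh (emb a, emb c) - 2 * Real.log (height a (c - a) c)) ≤
            |κ * (hh (emb a, emb c) - 2 * Real.log (height a (c - a) c))| := le_abs_self _
          _ = |κ| * |2 * Real.log (height a (c - a) c) - hh (emb a, emb c)| := by
              rw [abs_mul, abs_sub_comm (hh (emb a, emb c))]
          _ ≤ |κ| * (2 * Real.log 2) := mul_le_mul_of_nonneg_left h3 (abs_nonneg _)
      linarith⟩
    refine ⟨Real.exp (-(|1 - η| * Real.log 2 + |C1| / 2)), Real.exp_pos _, ?_⟩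
    intro a b c hT _ S hS
    have h1 := hC1 _ hT.valid
    rw [W_eq_log hT hS] at h1
    have h3 := height_log hT
    have hH := height_pos hT
    have hP := prod_pos' hS
    rw [← Real.log_le_log_iff (mul_pos (Real.exp_pos _) (Real.rpow_pos_of_pos hH _)) hP,
      Real.log_mul (Real.exp_pos _).ne' (Real.rpow_pos_of_pos hH _).ne', Real.log_exp,
      Real.log_rpow hH]
    have h5 : (1 - η) * (2 * Real.log (height a b c) - hh (emb a, emb c)) ≤
        |1 - η| * (2 * Real.log 2) := by
      calc (1 - η) * (2 * Real.log (height a b c) - hh (emb a, emb c)) ≤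
          |(1 - η) * (2 * Real.log (height a b c) - hh (emb a, emb c))| := le_abs_self _
        _ = |1 - η| * |2 * Real.log (height a b c) - hh (emb a, emb c)| := abs_mul _ _
        _ ≤ |1 - η| * (2 * Real.log 2) := mul_le_mul_of_nonneg_left h3 (abs_nonneg _)
    have h6 := le_abs_self C1
    linarith
  refine ⟨main, ?_, ?_⟩
  · intro h ε hε
    obtain ⟨C, hC, hC'⟩ := h ε hε
    exact ⟨C, hC, fun a b c hT _ => hC' a b c hT trivial⟩
  · intro h ε hε
    obtain ⟨D, hD, hmain⟩ := main
    have hD0 : (0 : ℝ) < D := by exact_mod_cast hD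
    exact hmain ε hε.le (h (ε / D) (by positivity))

end Pool.Agent.Results.MP_dc323a_nt.OneCuspOneDirection
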