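import Pool.Agent.V8H8.AB.Excess
import Pool.Agent.V8H8.AB.Ratl
import Pool.Agent.H390R2.Core

/-!
# Triples of Gaussian integers with a small radical in every region

Let `m ≥ 1`, `N ≠ 0` a Gaussian integer, `δ > 0`, `|u| = 1` and `θ > 0`. There is `κ > 0` such that for
infinitely many coprime triples `a + b = c` of Gaussian integers with `a` and `c` perfect `m`-th powers,
`N ∣ a`, `|a| ≤ δ |c|` and the direction of `a / c` within `θ` of `u`,
`rad(abc) < H exp (- κ √(log H) / log log H)`, where `H = max {|a|, |b|, |c|}`. So `ε` cannot be removed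
from the conjecture in any such region.

The excess of the height over the radical is kept by the maps unramified outside the cusps; one starts
from the triples of rational integers of Stewart and Tijdeman, which are in the starting library.
-/

set_option autoImplicit false

namespace Pool.Agent.Results.MP_dc323a_nt.SmallRadicals

/-- coprime triples `a + b = c` with `a b c ≠ 0` -/
structure Triple (a b c : GaussianInt) : Prop where
  sum : a + b = c
  ne : a * b * c ≠ 0
  cop : IsCoprime a b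

/-- `S` contains exactly one Gaussian prime from each associate class of Gaussian primes
dividing `x` -/
def IsPrimeSystem (S : Finset GaussianInt) (x : GaussianInt) : Prop :=
  (∀ Q ∈ S, Prime Q ∧ Q ∣ x) ∧
  (∀ Q : GaussianInt, Prime Q → Q ∣ x → ∃ R ∈ S, Associated Q R) ∧
  (∀ Q ∈ S, ∀ R ∈ S, Associated Q R → Q = R)

/-- the largest absolute value of the members of a triple -/
noncomputable def height (a b c : GaussianInt) : ℝ :=
  max ‖GaussianInt.toComplex a‖ (max ‖GaussianInt.toComplex b‖ ‖GaussianInt.toComplex c‖)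

/-- the direction `z / |z|` of a complex number -/
noncomputable def direction (z : ℂ) : ℂ := z / (‖z‖ : ℂ)

/-- the coprime triples `(a, b, c)`, `a + b = c`, with `a` and `c` perfect `m`-th powers, `N ∣ a`,
`|a| ≤ δ |c|`, and the direction of `a / c` within `θ` of `u` -/
def Region (m : ℕ) (N : GaussianInt) (δ : ℝ) (u : ℂ) (θ : ℝ) :
    Set (GaussianInt × GaussianInt × GaussianInt) :=
  {x | Triple x.1 x.2.1 x.2.2 ∧ (∃ y, x.1 = y ^ m) ∧ (∃ z, x.2.2 = z ^ m) ∧ N ∣ x.1 ∧
    ‖GaussianInt.toComplex x.1‖ ≤ δ * ‖GaussianInt.toComplex x.2.2‖ ∧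
    ‖direction (GaussianInt.toComplex x.1 / GaussianInt.toComplex x.2.2) - u‖ ≤ θ}

open NumberField Pool.Agent.V8H8.AB
open Pool.Agent.TH402.AK (K4 emb emb_inj e Quadrant quadrant_uniq exists_quadrant quad_finite)

lemma exists_system {n : GaussianInt} (hn : n ≠ 0) : ∃ S, IsPrimeSystem S n := by
  classical
  refine ⟨(quad_finite hn).toFinset, ?_, ?_, ?_⟩
  · intro Q hQ
    rw [Set.Finite.mem_toFinset] at hQ
    exact ⟨hQ.1, hQ.2.1⟩
  · intro Q hQ hQn
    obtain ⟨w, hw, hQw⟩ := exists_quadrant hQ.ne_zero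
    refine ⟨w, ?_, hQw⟩
    rw [Set.Finite.mem_toFinset]
    exact ⟨hQw.prime hQ, hQw.symm.dvd.trans hQn, hw⟩
  · intro Q hQ R hR h
    rw [Set.Finite.mem_toFinset] at hQ hR
    exact quadrant_uniq hQ.2.2 hR.2.2 h

lemma norm_pos' {z : GaussianInt} (hz : z ≠ 0) : 0 < ‖GaussianInt.toComplex z‖ := by
  rw [norm_pos_iff]
  intro h0
  exact hz (GaussianInt.toComplex_injective (h0.trans (map_zero _).symm))

lemma Triple.a0 {a b c : GaussianInt} (h : Triple a b c) : a ≠ 0 := by
  rintro rfl
  exact h.ne (by ring)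

lemma Triple.b0 {a b c : GaussianInt} (h : Triple a b c) : b ≠ 0 := by
  rintro rfl
  exact h.ne (by ring)

lemma Triple.c0 {a b c : GaussianInt} (h : Triple a b c) : c ≠ 0 := by
  rintro rfl
  exact h.ne (by ring)

lemma Triple.copac {a b c : GaussianInt} (h : Triple a b c) : IsCoprime a c := by
  rw [← h.sum]
  exact h.cop.mul_add_left_right 1 |> fun h' => by simpa [add_comm] using h'

lemma Triple.valid {a b c : GaussianInt} (h : Triple a b c) : Valid (emb a, emb c) := by
  refine ⟨emb_ne h.a0, emb_ne h.c0, ?_⟩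
  show emb c - emb a ≠ 0
  rw [← map_sub]
  apply emb_ne
  rw [← h.sum, add_sub_cancel_left]
  exact h.b0

/-- the height and the one of the pair -/
lemma height_log {a b c : GaussianInt} (h : Triple a b c) :
    |2 * Real.log (height a b c) - hh (emb a, emb c)| ≤ 2 * Real.log 2 := by
  rw [hh_gauss h.copac h.c0]
  set A := ‖GaussianInt.toComplex a‖ with hA
  set B := ‖GaussianInt.toComplex b‖ with hB
  set C := ‖GaussianInt.toComplex c‖ with hC
  have a0 : 0 < A := norm_pos' h.a0
  have hM : 0 < max A C := lt_of_lt_of_le a0 (le_max_left _ _)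
  have hBle : B ≤ 2 * max A C := by
    have e1 : GaussianInt.toComplex b = GaussianInt.toComplex c - GaussianInt.toComplex a := by
      rw [← map_sub]
      congr 1
      rw [← h.sum]
      ring
    rw [hB, e1]
    have h1 := norm_sub_le (GaussianInt.toComplex c) (GaussianInt.toComplex a)
    have h2 := le_max_left A C
    have h3 := le_max_right A C
    linarith
  have h1 : max A C ≤ height a b c := by
    unfold height
    exact max_le (le_max_left _ _) ((le_max_right _ _).trans (le_max_right _ _))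
  have h2 : height a b c ≤ 2 * max A C := by
    unfold height
    have h3 := le_max_left A C
    have h4 := le_max_right A C
    refine max_le (by linarith) (max_le hBle (by linarith))
  have h3 := Real.log_le_log hM h1
  have h4 := Real.log_le_log (hM.trans_le h1) h2
  rw [Real.log_mul two_ne_zero hM.ne'] at h4
  have h5 : 0 < Real.log 2 := Real.log_pos (by norm_num)
  rw [abs_le]
  constructor <;> linarith

lemma height_pos {a b c : GaussianInt} (h : Triple a b c) : 0 < height a b c :=
  lt_of_lt_of_le (norm_pos' h.a0) (le_max_left _ _)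

lemma prod_pos' {n : GaussianInt} {S : Finset GaussianInt} (hS : IsPrimeSystem S n) :
    0 < ∏ Q ∈ S, ‖GaussianInt.toComplex Q‖ :=
  Finset.prod_pos fun Q hQ => norm_pos' (hS.1 Q hQ).1.ne_zero

lemma W_eq_log {a b c : GaussianInt} (h : Triple a b c) {S : Finset GaussianInt}
    (hS : IsPrimeSystem S (a * b * c)) :
    W (I (emb a, emb c)) = 2 * Real.log (∏ Q ∈ S, ‖GaussianInt.toComplex Q‖) := by
  rw [I_gauss h.sum h.copac]
  exact W_gauss h.ne hS


lemma one_le_norm {z : GaussianInt} (hz : z ≠ 0) : 1 ≤ ‖GaussianInt.toComplex z‖ := by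
  have h1 : (1 : ℝ) ≤ (z.norm : ℝ) := by
    have := GaussianInt.norm_pos.2 hz
    exact_mod_cast this
  have h2 : ‖GaussianInt.toComplex z‖ ^ 2 = (z.norm : ℝ) := by
    rw [← Complex.normSq_eq_norm_sq, ← GaussianInt.intCast_real_norm]
  by_contra hcon
  push Not at hcon
  have h3 := norm_nonneg (GaussianInt.toComplex z)
  nlinarith

lemma one_le_height {a b c : GaussianInt} (h : Triple a b c) : 1 ≤ height a b c :=
  (one_le_norm h.a0).trans (le_max_left _ _)

lemma dir_pow (z : ℂ) (m : ℕ) : dir (z ^ m) = dir z ^ m := by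
  unfold dir
  rw [norm_pow, div_pow]
  push_cast
  rfl

lemma pow_close {z w : ℂ} (hz : ‖z‖ ≤ 1) (hw : ‖w‖ = 1) (m : ℕ) : ‖z ^ m - w ^ m‖ ≤ m * ‖z - w‖ := by
  induction m with
  | zero => simp
  | succ m ih =>
    have e1 : z ^ (m + 1) - w ^ (m + 1) = (z ^ m - w ^ m) * z + w ^ m * (z - w) := by ring
    rw [e1]
    refine (norm_add_le _ _).trans ?_
    rw [norm_mul, norm_mul, norm_pow, hw, one_pow, one_mul]
    push_cast
    have := mul_le_mul ih hz (norm_nonneg _) (by positivity)
    linarith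

lemma exists_root {u : ℂ} (hu : ‖u‖ = 1) {m : ℕ} (hm : 1 ≤ m) : ∃ w : ℂ, ‖w‖ = 1 ∧ w ^ m = u := by
  obtain ⟨w, hw⟩ := IsAlgClosed.exists_pow_nat_eq u (by omega : 0 < m)
  refine ⟨w, ?_, hw⟩
  have h1 : ‖w‖ ^ m = 1 := by rw [← norm_pow, hw, hu]
  exact (pow_eq_one_iff_of_nonneg (norm_nonneg _) (by omega)).1 h1


/-- the triples of rational integers -/
lemma start (Y : ℝ) : ∃ (y : ℝ) (p : K4 × K4), Y < y ∧ Valid p ∧ hh p = 2 * y ∧
    2 * (√y / Real.log y) ≤ hh p - W (I p) := by
  obtain ⟨a, b, c, ⟨ha, hb, hc, habc, hab, hac, hbc⟩, hX, hlt⟩ :=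
    Pool.Agent.H390R2.core (ε := 1 / 4) (K := 1) (by norm_num) le_rfl zero_le_one (by
      have h1 : Real.exp (3 * (1 / 4)) * Real.exp (-(44 / 15)) ≤ 1 := by
        rw [← Real.exp_add]
        exact Real.exp_le_one_iff.2 (by norm_num)
      have h2 : Real.exp (3 * (1 / 4)) * Real.exp (-(44 / 15)) ≤ 1 / 3 := by
        rw [← Real.exp_add]
        have h3 : (3 : ℝ) ≤ Real.exp (131 / 60) := by
          have := Real.add_one_le_exp (131 / 60 : ℝ)
          linarith
        have h4 : Real.exp (3 * (1 / 4) + -(44 / 15)) * Real.exp (131 / 60) = 1 := by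
          rw [← Real.exp_add]
          norm_num
        have h5 := Real.exp_pos (3 * (1 / 4) + -(44 / 15))
        nlinarith
      have h6 : (2 : ℝ) ≤ Real.exp 1 := by
        have := Real.add_one_le_exp (1 : ℝ)
        linarith
      nlinarith) Y
  rw [one_mul] at hlt
  have hcpos : (0 : ℝ) < c := by exact_mod_cast hc
  have hacle : a ≤ c := by omega
  have haZ : ((a : ℤ) : GaussianInt) ≠ 0 := by
    have : (a : ℤ) ≠ 0 := by omega
    exact_mod_cast this
  have hcZ : ((c : ℤ) : GaussianInt) ≠ 0 := by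
    have : (c : ℤ) ≠ 0 := by omega
    exact_mod_cast this
  have hbZ : ((b : ℤ) : GaussianInt) ≠ 0 := by
    have : (b : ℤ) ≠ 0 := by omega
    exact_mod_cast this
  have hcop : IsCoprime ((a : ℤ) : GaussianInt) ((c : ℤ) : GaussianInt) := by
    have h1 : IsCoprime (a : ℤ) (c : ℤ) := Nat.isCoprime_iff_coprime.2 hac
    exact h1.map (Int.castRingHom GaussianInt)
  have hsum : ((a : ℤ) : GaussianInt) + ((b : ℤ) : GaussianInt) = ((c : ℤ) : GaussianInt) := by
    rw [← habc]
    push_cast
    ring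
  have hnorm : ∀ n : ℕ, ‖GaussianInt.toComplex ((n : ℤ) : GaussianInt)‖ = n := by
    intro n
    rw [map_intCast]
    simp
  have hh1 : hh (emb ((a : ℤ) : GaussianInt), emb ((c : ℤ) : GaussianInt)) = 2 * Real.log c := by
    rw [hh_gauss hcop hcZ, hnorm, hnorm, max_eq_right]
    exact_mod_cast hacle
  refine ⟨Real.log c, (emb ((a : ℤ) : GaussianInt), emb ((c : ℤ) : GaussianInt)), hX,
    ⟨emb_ne haZ, emb_ne hcZ, ?_⟩, hh1, ?_⟩
  · show emb ((c : ℤ) : GaussianInt) - emb ((a : ℤ) : GaussianInt) ≠ 0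
    rw [← map_sub, ← hsum, add_sub_cancel_left]
    exact emb_ne hbZ
  · rw [hh1, I_gauss hsum hcop]
    have hn : ((a * b * c : ℕ) : ℤ) ≠ 0 := by
      have : a * b * c ≠ 0 := by positivity
      exact_mod_cast this
    have h1 := W_rat hn
    have e1 : (((a * b * c : ℕ) : ℤ) : GaussianInt) =
        ((a : ℤ) : GaussianInt) * ((b : ℤ) : GaussianInt) * ((c : ℤ) : GaussianInt) := by
      push_cast
      ring
    rw [e1] at h1
    have e2 : radZ ((a * b * c : ℕ) : ℤ) = (Pool.Agent.H390R2.rad (a * b * c) : ℝ) := by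
      unfold radZ Pool.Agent.H390R2.rad
      rw [Int.natAbs_natCast]
      push_cast
      rfl
    rw [e2] at h1
    linarith

/-- Let `m ≥ 1`, `N ≠ 0` a Gaussian integer, `δ > 0`, `|u| = 1` and `θ > 0`. There is `κ > 0` such that
there are infinitely many (of arbitrarily large height) coprime triples `a + b = c` of Gaussian integers
with `a` and `c` perfect `m`-th powers, `N ∣ a`, `|a| ≤ δ |c|` and the direction of `a / c` within `θ` of
`u`, such that `rad(abc) < H exp (- κ √(log H) / log log H)`, where `H = max {|a|, |b|, |c|}`. -/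
theorem result (m : ℕ) (hm : 1 ≤ m) (N : GaussianInt) (hN : N ≠ 0) (δ : ℝ) (hδ : 0 < δ) (u : ℂ)
    (hu : ‖u‖ = 1) (θ : ℝ) (hθ : 0 < θ) :
    ∃ κ : ℝ, 0 < κ ∧ ∀ X : ℝ, ∃ x ∈ Region m N δ u θ, X < height x.1 x.2.1 x.2.2 ∧
      ∃ S : Finset GaussianInt, IsPrimeSystem S (x.1 * x.2.1 * x.2.2) ∧
        ∏ Q ∈ S, ‖GaussianInt.toComplex Q‖ < height x.1 x.2.1 x.2.2 *
          Real.exp (-(κ * √(Real.log (height x.1 x.2.1 x.2.2)) /
            Real.log (Real.log (height x.1 x.2.1 x.2.2)))) := by
  obtain ⟨τ, hτ, hw⟩ := exists_tau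
  obtain ⟨u0, hu0, hu0m⟩ := exists_root hu hm
  have hm0 : (0 : ℝ) < m := by exact_mod_cast hm
  obtain ⟨D, C, hD, hC, hex⟩ := gauss_ex hτ hw hN (δ := min δ 1) (lt_min hδ one_pos) hu0
    (θ := θ / m) (by positivity) hm
  have hlog2 : 0 < Real.log 2 := Real.log_pos (by norm_num)
  have hlog2' : Real.log 2 < 1 := by
    have := Real.log_two_lt_d9
    linarith
  set D' : ℝ := D + 1 with hD'
  have hD'1 : 1 ≤ √D' := Real.one_le_sqrt.2 (by linarith)
  refine ⟨1 / (4 * √D'), by positivity, fun X => ?_⟩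
  set Z : ℝ := C + 2 with hZ
  have hZ2 : 2 ≤ Z := by linarith
  obtain ⟨y, p0, hy, hp0, hhp, hexc⟩ := start (max (16 + 2 * Z + Z * 1) (max ((8 * Z) ^ 4)
    (|Real.log (max X 1)| + Z)))
  have y1 : 16 + 2 * Z + Z * 1 < y := (le_max_left _ _).trans_lt hy
  have y2 : (8 * Z) ^ 4 < y := ((le_max_left _ _).trans (le_max_right _ _)).trans_lt hy
  have y3 : |Real.log (max X 1)| + Z < y :=
    ((le_max_right _ _).trans (le_max_right _ _)).trans_lt hy
  have y0 : 0 < y := by linarith
  obtain ⟨p, hv, ⟨q, hq, hpq, hU⟩, p3, p4, p5⟩ := hex p0 hp0 trivial (by rw [hhp]; linarith)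
  rw [hhp] at p3 p4
  -- the triple
  have hdata : ∃ x : GaussianInt × GaussianInt × GaussianInt,
      x ∈ Region m N δ u θ ∧ hh (emb x.1, emb x.2.2) = hh p ∧ I (emb x.1, emb x.2.2) = I p := by
    subst hpq
    obtain ⟨a, c, l, hl, hc0, hcop, rfl⟩ := exists_coprime q hq.2.1
    obtain ⟨v1, v2, v3⟩ := hq
    obtain ⟨u1, u2, u3⟩ := hU
    simp only at v1 v2 v3 u1 u2 u3
    have ha0 : a ≠ 0 := by
      rintro rfl
      apply v1
      rw [map_zero, mul_zero]
    have hlm : l ^ m ≠ 0 := pow_ne_zero _ hl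
    have hpw : pw m (l * emb a, l * emb c) = (l ^ m * emb (a ^ m), l ^ m * emb (c ^ m)) := by
      unfold pw
      simp only [mul_pow, map_pow]
    rw [hpw] at hv ⊢
    obtain ⟨w1, w2, w3⟩ := hv
    simp only at w1 w2 w3
    have hca : c ^ m - a ^ m ≠ 0 := by
      intro h0
      apply w3
      rw [← mul_sub, ← map_sub, h0, map_zero, mul_zero]
    have hT : Triple (a ^ m) (c ^ m - a ^ m) (c ^ m) := by
      refine ⟨by ring, mul_ne_zero (mul_ne_zero (pow_ne_zero _ ha0) hca) (pow_ne_zero _ hc0), ?_⟩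
      obtain ⟨x, y, hxy⟩ := (hcop.pow : IsCoprime (a ^ m) (c ^ m))
      exact ⟨x + y, y, by linear_combination hxy⟩
    have hl0 : ∀ v : FinitePlace K4, 0 < v l := fun v => FinitePlace.pos_iff.2 hl
    have hτl : τ l ≠ 0 := (map_ne_zero τ).2 hl
    have hNa : N ∣ a := dvd_of_val hN fun v hv => by
      have h1 := u1 v hv
      rw [map_mul, map_mul] at h1
      have h2 : v l * v (emb a) ≤ v l * (v (emb N) * v (emb c)) := by
        calc v l * v (emb a) ≤ v (emb N) * (v l * v (emb c)) := h1
          _ = v l * (v (emb N) * v (emb c)) := by ring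
      have h3 := le_of_mul_le_mul_left h2 (hl0 v)
      have h4 := fin_le_one v c
      have h5 : 0 ≤ v (emb N) := apply_nonneg v _
      exact h3.trans (mul_le_of_le_one_right h5 h4)
    have hac : ‖GaussianInt.toComplex a‖ ≤ min δ 1 * ‖GaussianInt.toComplex c‖ := by
      rw [map_mul, map_mul, norm_mul, norm_mul, hτ, hτ] at u2
      have h1 : 0 < ‖τ l‖ := norm_pos_iff.2 hτl
      have h2 : ‖τ l‖ * ‖GaussianInt.toComplex a‖ ≤
          ‖τ l‖ * (min δ 1 * ‖GaussianInt.toComplex c‖) := by
        calc ‖τ l‖ * ‖GaussianInt.toComplex a‖ ≤ min δ 1 * (‖τ l‖ * ‖GaussianInt.toComplex c‖) := u2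
          _ = ‖τ l‖ * (min δ 1 * ‖GaussianInt.toComplex c‖) := by ring
      exact le_of_mul_le_mul_left h2 h1
    rw [map_mul, map_mul, hτ, hτ, mul_div_mul_left _ _ hτl] at u3
    have hz0 : GaussianInt.toComplex a / GaussianInt.toComplex c ≠ 0 :=
      div_ne_zero (norm_pos_iff.1 (norm_pos' ha0)) (norm_pos_iff.1 (norm_pos' hc0))
    refine ⟨(a ^ m, c ^ m - a ^ m, c ^ m), ⟨hT, ⟨a, rfl⟩, ⟨c, rfl⟩,
      dvd_pow hNa (by omega), ?_, ?_⟩, ?_, ?_⟩
    · simp only
      rw [map_pow, map_pow, norm_pow, norm_pow]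
      have h1 := pow_le_pow_left₀ (norm_nonneg _) hac m
      rw [mul_pow] at h1
      refine h1.trans (mul_le_mul_of_nonneg_right ?_ (by positivity))
      have h0 : 0 ≤ min δ 1 := (lt_min hδ one_pos).le
      calc min δ 1 ^ m ≤ min δ 1 ^ 1 := pow_le_pow_of_le_one h0 (min_le_right _ _) hm
        _ ≤ δ := by
          rw [pow_one]
          exact min_le_left _ _
    · simp only
      rw [map_pow, map_pow, ← div_pow]
      show ‖dir ((GaussianInt.toComplex a / GaussianInt.toComplex c) ^ m) - u‖ ≤ θ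
      rw [dir_pow, ← hu0m]
      refine (pow_close (norm_dir hz0).le hu0 m).trans ?_
      calc (m : ℝ) * ‖dir (GaussianInt.toComplex a / GaussianInt.toComplex c) - u0‖ ≤ m * (θ / m) :=
            mul_le_mul_of_nonneg_left u3 hm0.le
        _ = θ := by field_simp
    · have := hh_smul hlm (emb (a ^ m), emb (c ^ m))
      simp only at this ⊢
      exact this.symm
    · have := I_smul hlm (emb (a ^ m), emb (c ^ m))
      simp only at this ⊢
      exact this.symm
  obtain ⟨x, hR, g2, g3⟩ := hdata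
  have hT : Triple x.1 x.2.1 x.2.2 := hR.1
  have hh1 := height_log hT
  rw [g2, abs_le] at hh1
  have hH := height_pos hT
  obtain ⟨S, hS⟩ := exists_system hT.ne
  have hW := W_eq_log hT hS
  rw [g3] at hW
  have hP := prod_pos' hS
  set H : ℝ := height x.1 x.2.1 x.2.2 with hHdef
  set z : ℝ := Real.log H with hz
  -- bounds for `z`
  have z1 : y / 2 ≤ z := by linarith
  have z2 : z ≤ D' * y := by
    have : D' * y = D * y + y := by
      rw [hD']
      ring
    linarith
  have hlogy : 0 < Real.log y := Real.log_pos (by linarith)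
  have hlogz : 1 / 2 * Real.log y ≤ Real.log z := by
    have h1 : Real.log (y / 2) ≤ Real.log z := Real.log_le_log (by linarith) z1
    rw [Real.log_div y0.ne' two_ne_zero] at h1
    have h2 : 2 * Real.log 2 ≤ Real.log y := by
      have h3 := Real.log_le_log (by norm_num : (0 : ℝ) < 4) (by linarith : (4 : ℝ) ≤ y)
      have h4 : Real.log 4 = 2 * Real.log 2 := by
        rw [show (4 : ℝ) = 2 ^ 2 by norm_num, Real.log_pow]
        norm_num
      rw [h4] at h3
      exact h3
    linarith
  have hsqz : √z ≤ √D' * √y := by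
    rw [← Real.sqrt_mul (by linarith)]
    exact Real.sqrt_le_sqrt z2
  -- the size of `√y / log y`
  have hbig : 4 * Z ≤ √y / Real.log y := by
    set t : ℝ := √(√y) with ht
    have ht2 : t ^ 2 = √y := Real.sq_sqrt (Real.sqrt_nonneg y)
    have ht4 : t ^ 4 = y := by
      have : t ^ 4 = (t ^ 2) ^ 2 := by ring
      rw [this, ht2, Real.sq_sqrt y0.le]
    have ht0 : 0 < t := Real.sqrt_pos.2 (Real.sqrt_pos.2 y0)
    have hlt : Real.log y ≤ 2 * t := by
      have h1 : Real.log y = 4 * Real.log t := by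
        rw [← ht4, Real.log_pow]
        norm_num
      have h2 : Real.log t = 2 * Real.log (√t) := by
        have h3 : Real.log (√t ^ 2) = 2 * Real.log (√t) := by
          rw [Real.log_pow]
          norm_num
        rw [← h3, Real.sq_sqrt ht0.le]
      have h4 := Real.log_le_sub_one_of_pos (Real.sqrt_pos.2 ht0)
      have h5 : √t ^ 2 = t := Real.sq_sqrt ht0.le
      have h6 : 0 ≤ (√t - 2) ^ 2 := sq_nonneg _
      rw [h1, h2]
      nlinarith
    have hZt : 8 * Z ≤ t := by
      by_contra hcon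
      push Not at hcon
      have h1 : t ^ 4 ≤ (8 * Z) ^ 4 := pow_le_pow_left₀ ht0.le hcon.le 4
      rw [ht4] at h1
      linarith
    rw [le_div_iff₀ hlogy, ← ht2]
    calc 4 * Z * Real.log y ≤ 4 * Z * (2 * t) := mul_le_mul_of_nonneg_left hlt (by linarith)
      _ = (8 * Z) * t := by ring
      _ ≤ t * t := mul_le_mul_of_nonneg_right hZt ht0.le
      _ = t ^ 2 := by ring
  have hz0 : 0 < z := by linarith
  have hlogz0 : 0 < Real.log z := by linarith
  have hmain : 1 / (4 * √D') * √z / Real.log z ≤ 1 / 2 * (√y / Real.log y) := by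
    rw [div_le_iff₀ hlogz0]
    have hD0 : 0 < √D' := by linarith
    calc 1 / (4 * √D') * √z ≤ 1 / (4 * √D') * (√D' * √y) :=
          mul_le_mul_of_nonneg_left hsqz (by positivity)
      _ = 1 / 2 * (√y / Real.log y) * (1 / 2 * Real.log y) := by
        field_simp
        norm_num
      _ ≤ 1 / 2 * (√y / Real.log y) * Real.log z := mul_le_mul_of_nonneg_left hlogz (by positivity)
  refine ⟨x, hR, ?_, S, hS, ?_⟩
  · rw [← hHdef]
    have h1 : Real.log (max X 1) < Real.log H := by
      have := le_abs_self (Real.log (max X 1))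
      rw [← hz]
      linarith
    have h2 : 0 < max X 1 := lt_max_of_lt_right one_pos
    exact (le_max_left _ _).trans_lt ((Real.log_lt_log_iff h2 hH).1 h1)
  · rw [← hHdef, ← Real.log_lt_log_iff hP (mul_pos hH (Real.exp_pos _)),
      Real.log_mul hH.ne' (Real.exp_pos _).ne', Real.log_exp, ← hz]
    have h1 : 2 * (√y / Real.log y) - C ≤ hh p - W (I p) := by linarith
    rw [hW] at h1
    linarith

end Pool.Agent.Results.MP_dc323a_nt.SmallRadicals
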