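import Pool.Agent.V8H8.AB.GaussD

/-!
# If the abc conjecture over the Gaussian integers is false, each small region contains swarms of
exceptions

Let `m ≥ 1`, `N ≠ 0` a Gaussian integer, `δ > 0`, `|u| = 1`, `θ > 0` and `ρ > 0`. If the abc conjecture over
`ℤ[i]` is false, then there is `c₀ > 0` such that for all positive `ε < c₀`, all `κ > 0` and `t₀` there
is `t ≥ t₀` such that at least `c₀ / ε ^ 2` coprime triples `a + b = c` with `a` and `c` perfect `m`-th
powers, `N ∣ a`, `|a| ≤ δ |c|`, the direction of `a / c` within `θ` of `u` and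
`t ≤ max {|a|, |b|, |c|} ≤ t ^ (1 + ρ)` have `rad(abc) < κ max {|a|, |b|, |c|} ^ (1 - ε)`.
-/

set_option autoImplicit false

namespace Pool.Agent.Results.MP_dc323a_nt.Swarms

/-- coprime triples `a + b = c` with `a b c ≠ 0` -/
structure Triple (a b c : GaussianInt) : Prop where
  sum : a + b = c
  ne : a * b * c ≠ 0
  cop : IsCoprime a b

/-- `S` contains exactly one Gaussian prime from each associate class of Gaussian primes
dividing `x` -/
def IsPrimeSystem (S : Finset GaussianInt) (x : GaussianInt) : Prop :=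
  (∀ Q ∈ S, Prime Q ∧ Q ∣ x) ∧
  (∀ Q : GaussianInt, Prime Q → Q ∣ x → ∃ R ∈ S, Associated Q R) ∧
  (∀ Q ∈ S, ∀ R ∈ S, Associated Q R → Q = R)

/-- the largest absolute value of the members of a triple -/
noncomputable def height (a b c : GaussianInt) : ℝ :=
  max ‖GaussianInt.toComplex a‖ (max ‖GaussianInt.toComplex b‖ ‖GaussianInt.toComplex c‖)

/-- the direction `z / |z|` of a complex number -/
noncomputable def direction (z : ℂ) : ℂ := z / (‖z‖ : ℂ)

/-- the abc conjecture over `ℤ[i]` -/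
def ABC : Prop :=
  ∀ ε : ℝ, 0 < ε → ∃ C : ℝ, 0 < C ∧ ∀ a b c : GaussianInt, Triple a b c →
    ∀ S : Finset GaussianInt, IsPrimeSystem S (a * b * c) →
      C * height a b c ^ (1 - ε) ≤ ∏ Q ∈ S, ‖GaussianInt.toComplex Q‖

/-- the coprime triples `(a, b, c)`, `a + b = c`, with `a` and `c` perfect `m`-th powers, `N ∣ a`,
`|a| ≤ δ |c|`, and the direction of `a / c` within `θ` of `u` -/
def Region (m : ℕ) (N : GaussianInt) (δ : ℝ) (u : ℂ) (θ : ℝ) :
    Set (GaussianInt × GaussianInt × GaussianInt) :=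
  {x | Triple x.1 x.2.1 x.2.2 ∧ (∃ y, x.1 = y ^ m) ∧ (∃ z, x.2.2 = z ^ m) ∧ N ∣ x.1 ∧
    ‖GaussianInt.toComplex x.1‖ ≤ δ * ‖GaussianInt.toComplex x.2.2‖ ∧
    ‖direction (GaussianInt.toComplex x.1 / GaussianInt.toComplex x.2.2) - u‖ ≤ θ}

/-- the triples in `R` with `t ≤ max {|a|, |b|, |c|} ≤ t ^ (1 + ρ)` and
`rad(abc) < κ max {|a|, |b|, |c|} ^ (1 - ε)` -/
def Exceptions (R : Set (GaussianInt × GaussianInt × GaussianInt)) (ε κ t ρ : ℝ) :
    Set (GaussianInt × GaussianInt × GaussianInt) :=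
  {x | x ∈ R ∧ t ≤ height x.1 x.2.1 x.2.2 ∧ height x.1 x.2.1 x.2.2 ≤ t ^ (1 + ρ) ∧
    ∃ S : Finset GaussianInt, IsPrimeSystem S (x.1 * x.2.1 * x.2.2) ∧
      ∏ Q ∈ S, ‖GaussianInt.toComplex Q‖ < κ * height x.1 x.2.1 x.2.2 ^ (1 - ε)}

open NumberField Pool.Agent.V8H8.AB
open Pool.Agent.TH402.AK (K4 emb emb_inj e Quadrant quadrant_uniq exists_quadrant quad_finite)

lemma exists_system {n : GaussianInt} (hn : n ≠ 0) : ∃ S, IsPrimeSystem S n := by
  classical
  refine ⟨(quad_finite hn).toFinset, ?_, ?_, ?_⟩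
  · intro Q hQ
    rw [Set.Finite.mem_toFinset] at hQ
    exact ⟨hQ.1, hQ.2.1⟩
  · intro Q hQ hQn
    obtain ⟨w, hw, hQw⟩ := exists_quadrant hQ.ne_zero
    refine ⟨w, ?_, hQw⟩
    rw [Set.Finite.mem_toFinset]
    exact ⟨hQw.prime hQ, hQw.symm.dvd.trans hQn, hw⟩
  · intro Q hQ R hR h
    rw [Set.Finite.mem_toFinset] at hQ hR
    exact quadrant_uniq hQ.2.2 hR.2.2 h

lemma norm_pos' {z : GaussianInt} (hz : z ≠ 0) : 0 < ‖GaussianInt.toComplex z‖ := by
  rw [norm_pos_iff]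
  intro h0
  exact hz (GaussianInt.toComplex_injective (h0.trans (map_zero _).symm))

lemma Triple.a0 {a b c : GaussianInt} (h : Triple a b c) : a ≠ 0 := by
  rintro rfl
  exact h.ne (by ring)

lemma Triple.b0 {a b c : GaussianInt} (h : Triple a b c) : b ≠ 0 := by
  rintro rfl
  exact h.ne (by ring)

lemma Triple.c0 {a b c : GaussianInt} (h : Triple a b c) : c ≠ 0 := by
  rintro rfl
  exact h.ne (by ring)

lemma Triple.copac {a b c : GaussianInt} (h : Triple a b c) : IsCoprime a c := by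
  rw [← h.sum]
  exact h.cop.mul_add_left_right 1 |> fun h' => by simpa [add_comm] using h'

lemma Triple.valid {a b c : GaussianInt} (h : Triple a b c) : Valid (emb a, emb c) := by
  refine ⟨emb_ne h.a0, emb_ne h.c0, ?_⟩
  show emb c - emb a ≠ 0
  rw [← map_sub]
  apply emb_ne
  rw [← h.sum, add_sub_cancel_left]
  exact h.b0

/-- the height and the one of the pair -/
lemma height_log {a b c : GaussianInt} (h : Triple a b c) :
    |2 * Real.log (height a b c) - hh (emb a, emb c)| ≤ 2 * Real.log 2 := by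
  rw [hh_gauss h.copac h.c0]
  set A := ‖GaussianInt.toComplex a‖ with hA
  set B := ‖GaussianInt.toComplex b‖ with hB
  set C := ‖GaussianInt.toComplex c‖ with hC
  have a0 : 0 < A := norm_pos' h.a0
  have hM : 0 < max A C := lt_of_lt_of_le a0 (le_max_left _ _)
  have hBle : B ≤ 2 * max A C := by
    have e1 : GaussianInt.toComplex b = GaussianInt.toComplex c - GaussianInt.toComplex a := by
      rw [← map_sub]
      congr 1
      rw [← h.sum]
      ring
    rw [hB, e1]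
    have h1 := norm_sub_le (GaussianInt.toComplex c) (GaussianInt.toComplex a)
    have h2 := le_max_left A C
    have h3 := le_max_right A C
    linarith
  have h1 : max A C ≤ height a b c := by
    unfold height
    exact max_le (le_max_left _ _) ((le_max_right _ _).trans (le_max_right _ _))
  have h2 : height a b c ≤ 2 * max A C := by
    unfold height
    have h3 := le_max_left A C
    have h4 := le_max_right A C
    refine max_le (by linarith) (max_le hBle (by linarith))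
  have h3 := Real.log_le_log hM h1
  have h4 := Real.log_le_log (hM.trans_le h1) h2
  rw [Real.log_mul two_ne_zero hM.ne'] at h4
  have h5 : 0 < Real.log 2 := Real.log_pos (by norm_num)
  rw [abs_le]
  constructor <;> linarith

lemma height_pos {a b c : GaussianInt} (h : Triple a b c) : 0 < height a b c :=
  lt_of_lt_of_le (norm_pos' h.a0) (le_max_left _ _)

lemma prod_pos' {n : GaussianInt} {S : Finset GaussianInt} (hS : IsPrimeSystem S n) :
    0 < ∏ Q ∈ S, ‖GaussianInt.toComplex Q‖ :=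
  Finset.prod_pos fun Q hQ => norm_pos' (hS.1 Q hQ).1.ne_zero

lemma W_eq_log {a b c : GaussianInt} (h : Triple a b c) {S : Finset GaussianInt}
    (hS : IsPrimeSystem S (a * b * c)) :
    W (I (emb a, emb c)) = 2 * Real.log (∏ Q ∈ S, ‖GaussianInt.toComplex Q‖) := by
  rw [I_gauss h.sum h.copac]
  exact W_gauss h.ne hS


lemma one_le_norm {z : GaussianInt} (hz : z ≠ 0) : 1 ≤ ‖GaussianInt.toComplex z‖ := by
  have h1 : (1 : ℝ) ≤ (z.norm : ℝ) := by
    have := GaussianInt.norm_pos.2 hz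
    exact_mod_cast this
  have h2 : ‖GaussianInt.toComplex z‖ ^ 2 = (z.norm : ℝ) := by
    rw [← Complex.normSq_eq_norm_sq, ← GaussianInt.intCast_real_norm]
  by_contra hcon
  push Not at hcon
  have h3 := norm_nonneg (GaussianInt.toComplex z)
  nlinarith

lemma one_le_height {a b c : GaussianInt} (h : Triple a b c) : 1 ≤ height a b c :=
  (one_le_norm h.a0).trans (le_max_left _ _)

/-- the start -/
lemma start (h : ¬ ABC) : ∃ η : ℝ, 0 < η ∧ ∀ L : ℝ, ∃ p : K4 × K4, Valid p ∧ L ≤ hh p ∧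
    W (I p) ≤ (1 - η) * hh p := by
  unfold ABC at h
  push Not at h
  obtain ⟨η, hη, h⟩ := h
  refine ⟨η, hη, fun L => ?_⟩
  have hlog2 : 0 < Real.log 2 := Real.log_pos (by norm_num)
  set Z : ℝ := (1 + η) * Real.log 2 + |L| + Real.log 2 with hZ
  obtain ⟨a, b, c, hT, S, hS, hlt⟩ := h (Real.exp (-Z)) (Real.exp_pos _)
  have hH := height_pos hT
  have hP := prod_pos' hS
  have h1 := Real.log_lt_log hP hlt
  rw [Real.log_mul (Real.exp_pos _).ne' (Real.rpow_pos_of_pos hH _).ne', Real.log_exp,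
    Real.log_rpow hH] at h1
  have h2 := W_eq_log hT hS
  have h3 := height_log hT
  rw [abs_le] at h3
  have h4 : 0 ≤ Real.log (height a b c) := Real.log_nonneg (one_le_height hT)
  have h5 := W_nonneg (I (emb a, emb c))
  have hLa := le_abs_self L
  have hLa0 := abs_nonneg L
  have h6 : (1 - η) * Real.log (height a b c) = Real.log (height a b c) - η * Real.log (height a b c) := by
    ring
  rw [h6] at h1
  have h7 : 0 ≤ η * Real.log (height a b c) := by positivity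
  have h8 : 0 < η * Real.log 2 := by positivity
  have hZ' : Z = Real.log 2 + η * Real.log 2 + |L| + Real.log 2 := by
    rw [hZ]
    ring
  refine ⟨_, hT.valid, ?_, ?_⟩
  · linarith
  · have h9 : η * hh (emb a, emb c) ≤ η * (2 * Real.log (height a b c) + 2 * Real.log 2) :=
      mul_le_mul_of_nonneg_left (by linarith) hη.le
    have e1 : (1 - η) * hh (emb a, emb c) = hh (emb a, emb c) - η * hh (emb a, emb c) := by ring
    rw [e1]
    linarith

lemma dir_pow (z : ℂ) (m : ℕ) : dir (z ^ m) = dir z ^ m := by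
  unfold dir
  rw [norm_pow, div_pow]
  push_cast
  rfl

lemma pow_close {z w : ℂ} (hz : ‖z‖ ≤ 1) (hw : ‖w‖ = 1) (m : ℕ) : ‖z ^ m - w ^ m‖ ≤ m * ‖z - w‖ := by
  induction m with
  | zero => simp
  | succ m ih =>
    have e1 : z ^ (m + 1) - w ^ (m + 1) = (z ^ m - w ^ m) * z + w ^ m * (z - w) := by ring
    rw [e1]
    refine (norm_add_le _ _).trans ?_
    rw [norm_mul, norm_mul, norm_pow, hw, one_pow, one_mul]
    push_cast
    have := mul_le_mul ih hz (norm_nonneg _) (by positivity)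
    linarith

lemma exists_root {u : ℂ} (hu : ‖u‖ = 1) {m : ℕ} (hm : 1 ≤ m) : ∃ w : ℂ, ‖w‖ = 1 ∧ w ^ m = u := by
  obtain ⟨w, hw⟩ := IsAlgClosed.exists_pow_nat_eq u (by omega : 0 < m)
  refine ⟨w, ?_, hw⟩
  have h1 : ‖w‖ ^ m = 1 := by rw [← norm_pow, hw, hu]
  exact (pow_eq_one_iff_of_nonneg (norm_nonneg _) (by omega)).1 h1

/-- many exceptions if the conjecture is false -/
theorem lower (m : ℕ) (hm : 1 ≤ m) (N : GaussianInt) (hN : N ≠ 0) (δ : ℝ) (hδ : 0 < δ) (u : ℂ)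
    (hu : ‖u‖ = 1) (θ : ℝ) (hθ : 0 < θ) (ρ : ℝ) (hρ : 0 < ρ) (h : ¬ ABC) :
    ∃ c₀ : ℝ, 0 < c₀ ∧ ∀ ε : ℝ, 0 < ε → ε < c₀ → ∀ κ : ℝ, 0 < κ → ∀ t₀ : ℝ, ∃ t : ℝ, t₀ ≤ t ∧
      ∃ F : Finset (GaussianInt × GaussianInt × GaussianInt),
        (F : Set _) ⊆ Exceptions (Region m N δ u θ) ε κ t ρ ∧ c₀ / ε ^ 2 ≤ (F.card : ℝ) ∧
        ∀ x ∈ F, ∀ y ∈ F, x.1 * y.2.2 = y.1 * x.2.2 → x = y := by
  classical
  obtain ⟨η, hη, hbad⟩ := start h
  obtain ⟨τ, hτ, hw⟩ := exists_tau
  obtain ⟨u0, hu0, hu0m⟩ := exists_root hu hm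
  have hm0 : (0 : ℝ) < m := by exact_mod_cast hm
  obtain ⟨c', hc', hsw⟩ := gauss_swarm hτ hw hN (δ := min δ 1) (lt_min hδ one_pos) hu0
    (θ := θ / m) (by positivity) hm (sw_start hη hbad) (ρ / 2) (by positivity)
  have hlog2 : 0 < Real.log 2 := Real.log_pos (by norm_num)
  refine ⟨min (c' / 4) (1 / 2), by positivity, ?_⟩
  intro ε hε hεc κ hκ t₀
  have e1 : ε < c' / 4 := hεc.trans_le (min_le_left _ _)
  have e2 : ε < 1 / 2 := hεc.trans_le (min_le_right _ _)
  obtain ⟨s, hs, F, hFc, hF, hFinj⟩ := hsw (2 * ε) (by positivity) (by linarith)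
    (4 * Real.log 2 + 4 * |Real.log κ| + 1)
    (2 * Real.log 2 + 2 * |Real.log (max t₀ 1)| + 2 * (6 + 2 * ρ) * Real.log 2 / ρ)
  have hs1 : 0 ≤ 2 * (6 + 2 * ρ) * Real.log 2 / ρ := by positivity
  have hsρ : 2 * (6 + 2 * ρ) * Real.log 2 ≤ s * ρ := by
    rw [← div_le_iff₀ hρ]
    have := abs_nonneg (Real.log (max t₀ 1))
    linarith
  -- the triples
  have hdata : ∀ p : K4 × K4, ∃ x : GaussianInt × GaussianInt × GaussianInt, p ∈ F →
      x ∈ Region m N δ u θ ∧ hh (emb x.1, emb x.2.2) = hh p ∧ I (emb x.1, emb x.2.2) = I p ∧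
        p.1 / p.2 = emb x.1 / emb x.2.2 := by
    intro p
    by_cases hp : p ∈ F
    swap
    · exact ⟨0, fun h => absurd h hp⟩
    obtain ⟨hv, ⟨q, hq, rfl, hU⟩, -⟩ := hF p hp
    obtain ⟨a, c, l, hl, hc0, hcop, rfl⟩ := exists_coprime q hq.2.1
    obtain ⟨v1, v2, v3⟩ := hq
    obtain ⟨u1, u2, u3⟩ := hU
    simp only at v1 v2 v3 u1 u2 u3
    have ha0 : a ≠ 0 := by
      rintro rfl
      apply v1
      rw [map_zero, mul_zero]
    have hlm : l ^ m ≠ 0 := pow_ne_zero _ hl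
    have hpw : pw m (l * emb a, l * emb c) = (l ^ m * emb (a ^ m), l ^ m * emb (c ^ m)) := by
      unfold pw
      simp only [mul_pow, map_pow]
    rw [hpw] at hv ⊢
    obtain ⟨w1, w2, w3⟩ := hv
    simp only at w1 w2 w3
    have hca : c ^ m - a ^ m ≠ 0 := by
      intro h0
      apply w3
      rw [← mul_sub, ← map_sub, h0, map_zero, mul_zero]
    have hT : Triple (a ^ m) (c ^ m - a ^ m) (c ^ m) := by
      refine ⟨by ring, mul_ne_zero (mul_ne_zero (pow_ne_zero _ ha0) hca) (pow_ne_zero _ hc0), ?_⟩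
      obtain ⟨x, y, hxy⟩ := (hcop.pow : IsCoprime (a ^ m) (c ^ m))
      exact ⟨x + y, y, by linear_combination hxy⟩
    have hl0 : ∀ v : FinitePlace K4, 0 < v l := fun v => FinitePlace.pos_iff.2 hl
    have hτl : τ l ≠ 0 := (map_ne_zero τ).2 hl
    have hNa : N ∣ a := dvd_of_val hN fun v hv => by
      have h1 := u1 v hv
      rw [map_mul, map_mul] at h1
      have h2 : v l * v (emb a) ≤ v l * (v (emb N) * v (emb c)) := by
        calc v l * v (emb a) ≤ v (emb N) * (v l * v (emb c)) := h1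
          _ = v l * (v (emb N) * v (emb c)) := by ring
      have h3 := le_of_mul_le_mul_left h2 (hl0 v)
      have h4 := fin_le_one v c
      have h5 : 0 ≤ v (emb N) := apply_nonneg v _
      exact h3.trans (mul_le_of_le_one_right h5 h4)
    have hac : ‖GaussianInt.toComplex a‖ ≤ min δ 1 * ‖GaussianInt.toComplex c‖ := by
      rw [map_mul, map_mul, norm_mul, norm_mul, hτ, hτ] at u2
      have h1 : 0 < ‖τ l‖ := norm_pos_iff.2 hτl
      have h2 : ‖τ l‖ * ‖GaussianInt.toComplex a‖ ≤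
          ‖τ l‖ * (min δ 1 * ‖GaussianInt.toComplex c‖) := by
        calc ‖τ l‖ * ‖GaussianInt.toComplex a‖ ≤ min δ 1 * (‖τ l‖ * ‖GaussianInt.toComplex c‖) := u2
          _ = ‖τ l‖ * (min δ 1 * ‖GaussianInt.toComplex c‖) := by ring
      exact le_of_mul_le_mul_left h2 h1
    rw [map_mul, map_mul, hτ, hτ, mul_div_mul_left _ _ hτl] at u3
    have hz0 : GaussianInt.toComplex a / GaussianInt.toComplex c ≠ 0 :=
      div_ne_zero (norm_pos_iff.1 (norm_pos' ha0)) (norm_pos_iff.1 (norm_pos' hc0))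
    refine ⟨(a ^ m, c ^ m - a ^ m, c ^ m), fun _ => ⟨⟨hT, ⟨a, rfl⟩, ⟨c, rfl⟩,
      dvd_pow hNa (by omega), ?_, ?_⟩, ?_, ?_, ?_⟩⟩
    · simp only
      rw [map_pow, map_pow, norm_pow, norm_pow]
      have h1 := pow_le_pow_left₀ (norm_nonneg _) hac m
      rw [mul_pow] at h1
      refine h1.trans (mul_le_mul_of_nonneg_right ?_ (by positivity))
      have h0 : 0 ≤ min δ 1 := (lt_min hδ one_pos).le
      calc min δ 1 ^ m ≤ min δ 1 ^ 1 := pow_le_pow_of_le_one h0 (min_le_right _ _) hm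
        _ ≤ δ := by
          rw [pow_one]
          exact min_le_left _ _
    · simp only
      rw [map_pow, map_pow, ← div_pow]
      show ‖dir ((GaussianInt.toComplex a / GaussianInt.toComplex c) ^ m) - u‖ ≤ θ
      rw [dir_pow, ← hu0m]
      refine (pow_close (norm_dir hz0).le hu0 m).trans ?_
      calc (m : ℝ) * ‖dir (GaussianInt.toComplex a / GaussianInt.toComplex c) - u0‖ ≤ m * (θ / m) :=
            mul_le_mul_of_nonneg_left u3 hm0.le
        _ = θ := by field_simp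
    · have := hh_smul hlm (emb (a ^ m), emb (c ^ m))
      simp only at this ⊢
      exact this.symm
    · have := I_smul hlm (emb (a ^ m), emb (c ^ m))
      simp only at this ⊢
      exact this.symm
    · simp only
      exact mul_div_mul_left _ _ hlm
  choose g hg using hdata
  have hF' : ∀ p ∈ F, s ≤ hh p ∧ hh p ≤ (1 + ρ / 2) * s ∧
      (1 + 2 * ε) * W (I p) + (4 * Real.log 2 + 4 * |Real.log κ| + 1) ≤ hh p := by
    intro p hp
    obtain ⟨-, -, k1, k2, k3⟩ := hF p hp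
    exact ⟨k1, k2, k3⟩
  have hginj : ∀ p ∈ F, ∀ p' ∈ F, (g p).1 * (g p').2.2 = (g p').1 * (g p).2.2 → p = p' := by
    intro p hp p' hp' hpp
    apply hFinj p hp p' hp'
    obtain ⟨⟨hT, -⟩, -, -, k3⟩ := hg p hp
    obtain ⟨⟨hT', -⟩, -, -, k3'⟩ := hg p' hp'
    rw [k3, k3', div_eq_div_iff (emb_ne hT.c0) (emb_ne hT'.c0), ← map_mul, ← map_mul, hpp]
  set t : ℝ := Real.exp (s / 2 - Real.log 2) with ht
  have hlogt : Real.log t = s / 2 - Real.log 2 := by rw [ht, Real.log_exp]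
  have ht0 : 0 < t := Real.exp_pos _
  refine ⟨t, ?_, F.image g, ?_, ?_, ?_⟩
  · have h1 : Real.log (max t₀ 1) ≤ Real.log t := by
      rw [hlogt]
      have := le_abs_self (Real.log (max t₀ 1))
      linarith
    have h2 : 0 < max t₀ 1 := lt_max_of_lt_right one_pos
    exact (le_max_left _ _).trans ((Real.log_le_log_iff h2 ht0).1 h1)
  · intro x hx
    rw [Finset.coe_image, Set.mem_image] at hx
    obtain ⟨p, hp, rfl⟩ := hx
    have hp : p ∈ F := hp
    obtain ⟨k1, k2, k3⟩ := hF' p hp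
    obtain ⟨hR, g2, g3, -⟩ := hg p hp
    have hT : Triple (g p).1 (g p).2.1 (g p).2.2 := hR.1
    have hh1 := height_log hT
    rw [g2, abs_le] at hh1
    have hH := height_pos hT
    obtain ⟨S, hS⟩ := exists_system hT.ne
    have hW := W_eq_log hT hS
    rw [g3] at hW
    have hP := prod_pos' hS
    have hW0 := W_nonneg (I p)
    set H : ℝ := height (g p).1 (g p).2.1 (g p).2.2 with hHdef
    refine ⟨hR, ?_, ?_, S, hS, ?_⟩
    · rw [← hHdef, ← Real.log_le_log_iff ht0 hH, hlogt]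
      linarith
    · rw [← hHdef, ← Real.log_le_log_iff hH (Real.rpow_pos_of_pos ht0 _), Real.log_rpow ht0, hlogt]
      have e3 : (1 + ρ) * (s / 2 - Real.log 2) = (s + ρ / 2 * s) / 2 + (s * ρ) / 4 -
          Real.log 2 - ρ * Real.log 2 := by ring
      rw [e3]
      have h0 : 0 < ρ * Real.log 2 := by positivity
      have e4 : 2 * (6 + 2 * ρ) * Real.log 2 = 12 * Real.log 2 + 4 * (ρ * Real.log 2) := by ring
      rw [e4] at hsρ
      linarith
    · rw [← hHdef, ← Real.log_lt_log_iff hP (mul_pos hκ (Real.rpow_pos_of_pos hH _)),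
        Real.log_mul hκ.ne' (Real.rpow_pos_of_pos hH _).ne', Real.log_rpow hH]
      rw [hW] at k3
      set P : ℝ := Real.log (∏ Q ∈ S, ‖GaussianInt.toComplex Q‖) with hPdef
      set lH : ℝ := Real.log H with hlH
      -- `(1 + 2 ε) P + 2 log 2 + 2 |log κ| < lH + log 2`
      have h1 : (1 + 2 * ε) * P + (2 * Real.log 2 + 2 * |Real.log κ| + 1 / 2) ≤ lH + Real.log 2 := by
        have e5 : (1 + 2 * ε) * (2 * P) = 2 * ((1 + 2 * ε) * P) := by ring
        rw [e5] at k3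
        linarith
      have hP0 : 0 ≤ P := by linarith
      have hlH0 : 0 ≤ lH := Real.log_nonneg (one_le_height hT)
      -- multiply by `1 - ε`
      have h2 : P ≤ (1 - ε) * ((1 + 2 * ε) * P) := by
        have e6 : (1 - ε) * ((1 + 2 * ε) * P) = P + (ε * (1 - 2 * ε)) * P := by ring
        rw [e6]
        have : 0 ≤ (ε * (1 - 2 * ε)) * P := mul_nonneg (mul_nonneg hε.le (by linarith)) hP0
        linarith
      have h3 : (1 - ε) * ((1 + 2 * ε) * P) ≤ (1 - ε) * (lH - (2 * |Real.log κ| + 1 / 2)) :=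
        mul_le_mul_of_nonneg_left (by linarith) (by linarith)
      have h4 : 1 / 2 * (2 * |Real.log κ| + 1 / 2) ≤ (1 - ε) * (2 * |Real.log κ| + 1 / 2) :=
        mul_le_mul_of_nonneg_right (by linarith) (by positivity)
      have e7 : (1 - ε) * (lH - (2 * |Real.log κ| + 1 / 2)) =
          (1 - ε) * lH - (1 - ε) * (2 * |Real.log κ| + 1 / 2) := by ring
      have h5 := neg_abs_le (Real.log κ)
      linarith
  · rw [Finset.card_image_of_injOn (fun p hp p' hp' hpp => hginj p hp p' hp' (by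
      have hpp : g p = g p' := hpp
      rw [hpp]))]
    refine le_trans ?_ hFc
    have e5 : c' / (2 * ε) ^ 2 = c' / 4 / ε ^ 2 := by
      field_simp
      ring
    rw [e5]
    gcongr
    exact min_le_left _ _
  · intro x hx y hy hxy
    obtain ⟨p, hp, rfl⟩ := Finset.mem_image.1 hx
    obtain ⟨p', hp', rfl⟩ := Finset.mem_image.1 hy
    rw [hginj p hp p' hp' hxy]

/-- Let `m ≥ 1`, `N ≠ 0` a Gaussian integer, `δ > 0`, `|u| = 1`, `θ > 0` and `ρ > 0`, and consider the
coprime triples `a + b = c` with `a` and `c` perfect `m`-th powers, `N ∣ a`, `|a| ≤ δ |c|` and the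
direction of `a / c` within `θ` of `u`.
(1) If the abc conjecture over `ℤ[i]` is false, then there is `c₀ > 0` such that for all positive
`ε < c₀`, all `κ > 0` and all `t₀` there is `t ≥ t₀` such that at least `c₀ / ε ^ 2` pairwise non
proportional of these triples satisfy `t ≤ max {|a|, |b|, |c|} ≤ t ^ (1 + ρ)` and
`rad(abc) < κ max {|a|, |b|, |c|} ^ (1 - ε)`.
(2) Hence the abc conjecture over `ℤ[i]` is true if and only if for every `κ₁ > 0` there are
arbitrarily small `ε > 0` and `κ > 0`, `t₀` such that for all `t ≥ t₀` at most `κ₁ / ε ^ 2` of these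
triples satisfy both. -/
theorem result (m : ℕ) (hm : 1 ≤ m) (N : GaussianInt) (hN : N ≠ 0) (δ : ℝ) (hδ : 0 < δ) (u : ℂ)
    (hu : ‖u‖ = 1) (θ : ℝ) (hθ : 0 < θ) (ρ : ℝ) (hρ : 0 < ρ) :
    (¬ ABC → ∃ c₀ : ℝ, 0 < c₀ ∧ ∀ ε : ℝ, 0 < ε → ε < c₀ → ∀ κ : ℝ, 0 < κ → ∀ t₀ : ℝ, ∃ t : ℝ,
      t₀ ≤ t ∧ ∃ F : Finset (GaussianInt × GaussianInt × GaussianInt),
        (F : Set _) ⊆ Exceptions (Region m N δ u θ) ε κ t ρ ∧ c₀ / ε ^ 2 ≤ (F.card : ℝ) ∧
        ∀ x ∈ F, ∀ y ∈ F, x.1 * y.2.2 = y.1 * x.2.2 → x = y) ∧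
    (ABC ↔ ∀ κ₁ : ℝ, 0 < κ₁ → ∀ ε₁ : ℝ, 0 < ε₁ → ∃ ε : ℝ, 0 < ε ∧ ε < ε₁ ∧ ∃ κ : ℝ, 0 < κ ∧ ∃ t₀ : ℝ,
      ∀ t : ℝ, t₀ ≤ t → ∀ F : Finset (GaussianInt × GaussianInt × GaussianInt),
        (F : Set _) ⊆ Exceptions (Region m N δ u θ) ε κ t ρ → (F.card : ℝ) ≤ κ₁ / ε ^ 2) := by
  refine ⟨lower m hm N hN δ hδ u hu θ hθ ρ hρ, ?_, ?_⟩
  · intro h κ₁ hκ₁ ε₁ hε₁
    obtain ⟨C, hC, hC'⟩ := h (ε₁ / 2) (by positivity)
    refine ⟨ε₁ / 2, by positivity, by linarith, C, hC, 0, fun t _ F hF => ?_⟩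
    have hempty : F = ∅ := by
      rw [Finset.eq_empty_iff_forall_notMem]
      intro x hx
      obtain ⟨⟨hT, -⟩, -, -, S, hS, hlt⟩ := hF hx
      have := hC' _ _ _ hT S hS
      linarith
    rw [hempty]
    simp only [Finset.card_empty, Nat.cast_zero]
    positivity
  · intro h
    by_contra hcon
    obtain ⟨c, hc, hlow⟩ := lower m hm N hN δ hδ u hu θ hθ ρ hρ hcon
    obtain ⟨ε, hε, hεc, κ, hκ, t₀, hup⟩ := h (c / 2) (by positivity) c hc
    obtain ⟨t, ht, F, hF, hcard, -⟩ := hlow ε hε hεc κ hκ t₀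
    have h1 := hup t ht F hF
    have h2 : c / 2 / ε ^ 2 < c / ε ^ 2 := by
      apply div_lt_div_of_pos_right _ (by positivity)
      linarith
    linarith

end Pool.Agent.Results.MP_dc323a_nt.Swarms
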